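import Pool.Agent.Helper525Drn.Core

/-!
# Derangement representations of bipartite graphs
-/

set_option autoImplicit false

namespace Pool.Agent.Helper525Drn

open Finset

/-- the positions (and labels): `c` blocks of size 3, a block of size 2, a block of size `t` -/
abbrev Pos (c t : ℕ) := (Fin c × Fin 3) ⊕ (Fin 2 ⊕ Fin t)

/-- the block of a position -/
def blk {c t : ℕ} : Pos c t → ℕ
  | Sum.inl (j, _) => j.val + 2
  | Sum.inr (Sum.inl _) => 0
  | Sum.inr (Sum.inr _) => 1

/-- the two signatures in a block of size 3 -/
def sig (b : Fin 2) : Equiv.Perm (Fin 3) := if b = 0 then 1 else finRotate 3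

/-- the permutation of a block of size 3 used by a vertex of the large side: `p`, `q` say whether
it is adjacent to the first and the second vertex of the block -/
def tab (p q : Bool) : Equiv.Perm (Fin 3) :=
  if p then (if q then (finRotate 3) * (finRotate 3) else finRotate 3)
  else (if q then 1 else Equiv.swap 0 1)

theorem tab_sig0 (p q : Bool) : (∃ a, tab p q a = sig 0 a) ↔ p = false := by
  revert p q; decide

theorem tab_sig1 (p q : Bool) : (∃ a, tab p q a = sig 1 a) ↔ q = false := by
  revert p q; decide

theorem sig_ne (b b' : Fin 2) (h : b ≠ b') (a : Fin 3) : sig b a ≠ sig b' a := by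
  revert b b' a; decide

theorem repr_of_type {V I : Type*} [Fintype I] (G : SimpleGraph V) (k : ℕ)
    (hk : Fintype.card I = k) (π : V → Equiv.Perm I) (h1 : Function.Injective π)
    (h2 : ∀ u v : V, u ≠ v → (G.Adj u v ↔ ∀ i : I, π u i ≠ π v i)) : Representable G k := by
  have e : I ≃ Fin k := Fintype.equivFinOfCardEq hk
  refine ⟨fun v => e.permCongr (π v), ?_, ?_⟩
  · intro u v h
    exact h1 (e.permCongr.injective h)
  · intro u v huv
    rw [h2 u v huv]
    constructor
    · intro h i hi
      apply h (e.symm i)
      simpa [Equiv.permCongr_apply] using hi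
    · intro h i hi
      apply h (e i)
      simp [Equiv.permCongr_apply, hi]

theorem blk_card {c t : ℕ} (ht : 3 ≤ t) (i : Pos c t) (B : Finset (Pos c t))
    (hB : ∀ x ∈ B, blk x = blk i) : B.card ≤ t := by
  rcases i with ⟨j, a⟩ | z | e
  · calc B.card ≤ ((univ : Finset (Fin 3)).image (fun a => (Sum.inl (j, a) : Pos c t))).card := by
          apply card_le_card
          intro x hx
          have := hB x hx
          rcases x with ⟨j', a'⟩ | z' | e'
          · simp only [blk] at this
            have h : j' = j := Fin.ext (by omega)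
            subst h
            exact mem_image.2 ⟨a', mem_univ _, rfl⟩
          · simp only [blk] at this
            omega
          · simp only [blk] at this
            omega
      _ ≤ (univ : Finset (Fin 3)).card := card_image_le
      _ = 3 := by simp
      _ ≤ t := ht
  · calc B.card ≤ ((univ : Finset (Fin 2)).image
            (fun a => (Sum.inr (Sum.inl a) : Pos c t))).card := by
          apply card_le_card
          intro x hx
          have := hB x hx
          rcases x with ⟨j', a'⟩ | z' | e'
          · simp only [blk] at this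
            omega
          · exact mem_image.2 ⟨z', mem_univ _, rfl⟩
          · simp only [blk] at this
            omega
      _ ≤ (univ : Finset (Fin 2)).card := card_image_le
      _ = 2 := by simp
      _ ≤ t := by omega
  · calc B.card ≤ ((univ : Finset (Fin t)).image
            (fun a => (Sum.inr (Sum.inr a) : Pos c t))).card := by
          apply card_le_card
          intro x hx
          have := hB x hx
          rcases x with ⟨j', a'⟩ | z' | e'
          · simp only [blk] at this
            omega
          · simp only [blk] at this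
            omega
          · exact mem_image.2 ⟨e', mem_univ _, rfl⟩
      _ ≤ (univ : Finset (Fin t)).card := card_image_le
      _ = t := by simp

/-- the row of a vertex of the small side -/
theorem smallRow (c t : ℕ) (ht : 3 ≤ t) (hc : t + 3 ≤ 3 * c) (j : Fin c) (b : Fin 2) :
    ∃ g : Equiv.Perm (Pos c t), (∀ a, g (Sum.inl (j, a)) = Sum.inl (j, sig b a)) ∧
      (∀ z, g (Sum.inr (Sum.inl z)) = Sum.inr (Sum.inl (Equiv.swap 0 1 z))) ∧
      (∀ i, blk i ≠ 0 → blk i ≠ j.val + 2 → blk (g i) ≠ blk i) := by
  classical
  let R : Finset (Pos c t) := univ.filter (fun i => blk i ≠ 0 ∧ blk i ≠ j.val + 2)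
  have hR : 2 * t ≤ R.card := by
    have h1 : (Rᶜ).card ≤ 5 := by
      have hsub : Rᶜ ⊆ ((univ : Finset (Fin 3)).image (fun a => (Sum.inl (j, a) : Pos c t))) ∪
          ((univ : Finset (Fin 2)).image (fun a => (Sum.inr (Sum.inl a) : Pos c t))) := by
        intro x hx
        rw [mem_compl] at hx
        rcases x with ⟨j', a'⟩ | z' | e'
        · apply mem_union_left
          by_cases h : j' = j
          · subst h
            exact mem_image.2 ⟨a', mem_univ _, rfl⟩
          · exfalso
            apply hx
            refine mem_filter.2 ⟨mem_univ _, ?_, ?_⟩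
            · simp only [blk]; omega
            · simp only [blk]
              intro h2
              exact h (Fin.ext (by omega))
        · exact mem_union_right _ (mem_image.2 ⟨z', mem_univ _, rfl⟩)
        · exfalso
          apply hx
          refine mem_filter.2 ⟨mem_univ _, ?_, ?_⟩
          · simp only [blk]; omega
          · simp only [blk]; omega
      have h2 := card_le_card hsub
      have h3 := card_union_le
        ((univ : Finset (Fin 3)).image (fun a => (Sum.inl (j, a) : Pos c t)))
        ((univ : Finset (Fin 2)).image (fun a => (Sum.inr (Sum.inl a) : Pos c t)))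
      have h4 : ((univ : Finset (Fin 3)).image (fun a => (Sum.inl (j, a) : Pos c t))).card ≤ 3 := by
        calc _ ≤ (univ : Finset (Fin 3)).card := card_image_le
          _ = 3 := by simp
      have h5 : ((univ : Finset (Fin 2)).image
          (fun a => (Sum.inr (Sum.inl a) : Pos c t))).card ≤ 2 := by
        calc _ ≤ (univ : Finset (Fin 2)).card := card_image_le
          _ = 2 := by simp
      omega
    have h6 : R.card + (Rᶜ).card = Fintype.card (Pos c t) := card_add_card_compl R
    have h7 : Fintype.card (Pos c t) = c * 3 + (2 + t) := by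
      simp [Pos, Fintype.card_sum, Fintype.card_prod]
    omega
  have : Nonempty (Pos c t) := ⟨Sum.inr (Sum.inl 0)⟩
  obtain ⟨f, hf1, hf2⟩ := matching R R rfl (fun i x => blk x = blk i) t hR
    (fun i _ B hB => blk_card ht i B hB) (fun x _ B hB => blk_card ht x B (fun i hi => (hB i hi).symm))
  have hfR : ∀ i ∈ R, blk (f i) ≠ 0 ∧ blk (f i) ≠ j.val + 2 := fun i hi =>
    (mem_filter.1 (hf1 i hi).1).2
  let g : Pos c t → Pos c t := fun i =>
    match i with
    | Sum.inl (j', a) => if j' = j then Sum.inl (j, sig b a) else f (Sum.inl (j', a))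
    | Sum.inr (Sum.inl z) => Sum.inr (Sum.inl (Equiv.swap 0 1 z))
    | Sum.inr (Sum.inr e) => f (Sum.inr (Sum.inr e))
  have g1 : ∀ a, g (Sum.inl (j, a)) = Sum.inl (j, sig b a) := by
    intro a; simp [g]
  have g2 : ∀ z, g (Sum.inr (Sum.inl z)) = Sum.inr (Sum.inl (Equiv.swap 0 1 z)) := fun z => rfl
  have g3 : ∀ i ∈ R, g i = f i := by
    intro i hi
    have h := (mem_filter.1 hi).2
    rcases i with ⟨j', a'⟩ | z' | e'
    · have : j' ≠ j := by
        rintro rfl
        exact h.2 rfl
      simp [g, this]
    · exact absurd rfl h.1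
    · rfl
  have cases3 : ∀ i : Pos c t, (∃ a, i = Sum.inl (j, a)) ∨ (∃ z, i = Sum.inr (Sum.inl z)) ∨
      i ∈ R := by
    intro i
    rcases i with ⟨j', a'⟩ | z' | e'
    · by_cases h : j' = j
      · subst h
        exact Or.inl ⟨a', rfl⟩
      · refine Or.inr (Or.inr (mem_filter.2 ⟨mem_univ _, ?_, ?_⟩))
        · simp only [blk]; omega
        · simp only [blk]
          intro h2
          exact h (Fin.ext (by omega))
    · exact Or.inr (Or.inl ⟨z', rfl⟩)
    · refine Or.inr (Or.inr (mem_filter.2 ⟨mem_univ _, ?_, ?_⟩))
      · simp only [blk]; omega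
      · simp only [blk]; omega
  have ginj : Function.Injective g := by
    intro i i' h
    rcases cases3 i with ⟨a, rfl⟩ | ⟨z, rfl⟩ | hi <;>
      rcases cases3 i' with ⟨a', rfl⟩ | ⟨z', rfl⟩ | hi'
    · rw [g1, g1] at h
      have h2 : sig b a = sig b a' := by simpa using h
      rw [(sig b).injective h2]
    · rw [g1, g2] at h
      simp at h
    · rw [g1, g3 _ hi'] at h
      exact absurd (by rw [← h]; rfl) (hfR _ hi').2
    · rw [g1, g2] at h
      simp at h
    · rw [g2, g2] at h
      have h2 : Equiv.swap (0 : Fin 2) 1 z = Equiv.swap 0 1 z' := by simpa using h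
      rw [(Equiv.swap (0 : Fin 2) 1).injective h2]
    · rw [g2, g3 _ hi'] at h
      exact absurd (by rw [← h]; rfl) (hfR _ hi').1
    · rw [g1, g3 _ hi] at h
      exact absurd (by rw [h]; rfl) (hfR _ hi).2
    · rw [g2, g3 _ hi] at h
      exact absurd (by rw [h]; rfl) (hfR _ hi).1
    · rw [g3 _ hi, g3 _ hi'] at h
      exact hf2 (mem_coe.2 hi) (mem_coe.2 hi') h
  refine ⟨Equiv.ofBijective g (Finite.injective_iff_bijective.1 ginj), g1, g2, ?_⟩
  intro i h1 h2
  have hi : i ∈ R := mem_filter.2 ⟨mem_univ _, h1, h2⟩
  change blk (g i) ≠ blk i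
  rw [g3 i hi]
  exact (hf1 i hi).2

theorem bipartite_aux {V : Type*} [Fintype V] (G : SimpleGraph V) (Y : V → Prop)
    (hXX : ∀ u v, ¬ Y u → ¬ Y v → ¬ G.Adj u v) (hYY : ∀ u v, Y u → Y v → ¬ G.Adj u v)
    (c t : ℕ) (ht : 3 ≤ t) (hc : t + 3 ≤ 3 * c) (hV : Fintype.card V ≤ Nat.factorial t)
    (φ : V → Fin c × Fin 2) (hφ : ∀ u v, Y u → Y v → φ u = φ v → u = v) :
    Representable G (3 * c + 2 + t) := by
  classical
  have hτ : Fintype.card V ≤ Fintype.card (Equiv.Perm (Fin t)) := by
    rw [Fintype.card_perm, Fintype.card_fin]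
    exact hV
  obtain ⟨τ⟩ := Function.Embedding.nonempty_of_card_le hτ
  choose S hS1 hS2 hS3 using fun (p : Fin c × Fin 2) => smallRow c t ht hc p.1 p.2
  let adj : V → Fin c → Fin 2 → Bool := fun x j b => decide (∃ y, Y y ∧ φ y = (j, b) ∧ G.Adj x y)
  let big : V → Equiv.Perm (Pos c t) := fun x =>
    Equiv.sumCongr (Equiv.prodCongrRight (fun j => tab (adj x j 0) (adj x j 1)))
      (Equiv.sumCongr (Equiv.refl _) (τ x))
  have big1 : ∀ x j a, big x (Sum.inl (j, a)) =
      Sum.inl (j, tab (adj x j 0) (adj x j 1) a) := fun x j a => rfl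
  have big2 : ∀ x z, big x (Sum.inr (Sum.inl z)) = Sum.inr (Sum.inl z) := fun x z => rfl
  have big3 : ∀ x e, big x (Sum.inr (Sum.inr e)) = Sum.inr (Sum.inr (τ x e)) := fun x e => rfl
  have bigblk : ∀ x i, blk (big x i) = blk i := by
    intro x i
    rcases i with ⟨j, a⟩ | z | e
    · rw [big1]; rfl
    · rw [big2]
    · rw [big3]; rfl
  let π : V → Equiv.Perm (Pos c t) := fun v => if Y v then S (φ v) else big v
  have πY : ∀ v, Y v → π v = S (φ v) := fun v h => if_pos h
  have πX : ∀ v, ¬ Y v → π v = big v := fun v h => if_neg h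
  -- the value of adj
  have hadj : ∀ x y, Y y → adj x (φ y).1 (φ y).2 = decide (G.Adj x y) := by
    intro x y hy
    simp only [adj]
    congr 1
    apply propext
    constructor
    · rintro ⟨y', h1, h2, h3⟩
      rw [hφ y y' hy h1 h2.symm]
      exact h3
    · intro h
      exact ⟨y, hy, rfl, h⟩
  have htab : ∀ x y, Y y → ((∃ a, tab (adj x (φ y).1 0) (adj x (φ y).1 1) a = sig (φ y).2 a) ↔
      ¬ G.Adj x y) := by
    intro x y hy
    have h := hadj x y hy
    have h01 : (φ y).2 = 0 ∨ (φ y).2 = 1 := by
      rcases (φ y).2 with ⟨v, hv⟩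
      interval_cases v
      · left; rfl
      · right; rfl
    rcases h01 with h0 | h0
    · rw [h0] at h ⊢
      rw [tab_sig0, h]
      simp
    · rw [h0] at h ⊢
      rw [tab_sig1, h]
      simp
  have mixed : ∀ x y, ¬ Y x → Y y → (G.Adj x y ↔ ∀ i, π x i ≠ π y i) := by
    intro x y hx hy
    rw [πX x hx, πY y hy]
    constructor
    · intro h i hi
      by_cases h1 : blk i = 0
      · rcases i with ⟨j, a⟩ | z | e
        · simp only [blk] at h1; omega
        · rw [big2, hS2] at hi
          have h2 : z = Equiv.swap 0 1 z := by simpa using hi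
          have h3 : ∀ w : Fin 2, w ≠ Equiv.swap 0 1 w := by decide
          exact h3 z h2
        · simp only [blk] at h1; omega
      · by_cases h2 : blk i = (φ y).1.val + 2
        · rcases i with ⟨j, a⟩ | z | e
          · simp only [blk] at h2
            have h3 : j = (φ y).1 := Fin.ext (by omega)
            subst h3
            rw [big1, hS1] at hi
            have h4 : tab (adj x (φ y).1 0) (adj x (φ y).1 1) a = sig (φ y).2 a := by
              simpa using hi
            exact (htab x y hy).1 ⟨a, h4⟩ h
          · simp only [blk] at h2; omega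
          · simp only [blk] at h2; omega
        · apply hS3 (φ y) i h1 h2
          rw [← hi, bigblk]
    · intro h
      by_contra hn
      obtain ⟨a, ha⟩ := (htab x y hy).2 hn
      apply h (Sum.inl ((φ y).1, a))
      rw [big1, hS1, ha]
  apply repr_of_type G _ (by
    simp [Pos, Fintype.card_sum, Fintype.card_prod]
    ring) π
  · -- injectivity
    intro u v huv
    by_cases hu : Y u <;> by_cases hv : Y v
    · rw [πY u hu, πY v hv] at huv
      apply hφ u v hu hv
      by_contra hne
      by_cases hj : (φ u).1 = (φ v).1
      · have hb : (φ u).2 ≠ (φ v).2 := fun h => hne (Prod.ext hj h)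
        have h1 := hS1 (φ u) 0
        have h2 := hS1 (φ v) 0
        rw [← hj, ← huv, h1] at h2
        have h3 : sig (φ u).2 0 = sig (φ v).2 0 := by simpa using h2
        exact sig_ne _ _ hb 0 h3
      · have h1 := hS1 (φ u) 0
        rw [huv] at h1
        apply hS3 (φ v) (Sum.inl ((φ u).1, 0))
        · simp only [blk]; omega
        · simp only [blk]
          intro h2
          exact hj (Fin.ext (by omega))
        · rw [h1]
          rfl
    · exfalso
      rw [πY u hu, πX v hv] at huv
      have h1 := hS2 (φ u) 0
      rw [huv, big2] at h1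
      simp at h1
    · exfalso
      rw [πX u hu, πY v hv] at huv
      have h1 := hS2 (φ v) 0
      rw [← huv, big2] at h1
      simp at h1
    · rw [πX u hu, πX v hv] at huv
      apply τ.injective
      ext e
      have h1 := big3 u e
      rw [huv, big3] at h1
      have h2 : τ v e = τ u e := by simpa using h1
      rw [h2]
  · intro u v hne
    by_cases hu : Y u <;> by_cases hv : Y v
    · refine ⟨fun h => absurd h (hYY u v hu hv), fun h => ?_⟩
      exfalso
      apply h (Sum.inr (Sum.inl 0))
      rw [πY u hu, πY v hv, hS2, hS2]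
    · rw [G.adj_comm, mixed v u hv hu]
      exact ⟨fun h i hi => h i hi.symm, fun h i hi => h i hi.symm⟩
    · exact mixed u v hu hv
    · refine ⟨fun h => absurd h (hXX u v hu hv), fun h => ?_⟩
      exfalso
      apply h (Sum.inr (Sum.inl 0))
      rw [πX u hu, πX v hv, big2, big2]

end Pool.Agent.Helper525Drn
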