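import Pool.Agent.Helper525Drn.Bipartite

/-!
# Derangement representations of bipartite graphs: choice of the parameters
-/

set_option autoImplicit false

namespace Pool.Agent.Helper525Drn

open Finset

theorem fact_ge (n t : ℕ) (hn : 37 ≤ n) (ht : n ≤ 4 * t + 17) : n ≤ Nat.factorial t := by
  have h5 : 5 ≤ t := by omega
  have key : ∀ s : ℕ, 4 * (s + 5) + 17 ≤ Nat.factorial (s + 5) := by
    intro s
    induction s with
    | zero => decide
    | succ s ih =>
      have e : s + 1 + 5 = (s + 5) + 1 := by ring
      rw [e, Nat.factorial_succ]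
      nlinarith
  have h := key (t - 5)
  have e : t - 5 + 5 = t := by omega
  rw [e] at h
  omega

theorem bipartite_main {V : Type*} [Fintype V] (G : SimpleGraph V) (hG : G.Colorable 2)
    (hn : 37 ≤ Fintype.card V) (k : ℕ) (hkn : k ≤ Fintype.card V)
    (hk : k = Fintype.card V ∨
      Fintype.card V ≤ Nat.factorial (k - 2 - 3 * ((Fintype.card V + 3) / 4))) :
    Representable G k := by
  classical
  set n := Fintype.card V with hnd
  obtain ⟨C⟩ := hG
  have hC : ∀ u v, G.Adj u v → C u ≠ C v := fun u v h => C.valid h
  set c := (n + 3) / 4 with hc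
  set t := k - 2 - 3 * c with ht
  have hfac : n ≤ Nat.factorial t := by
    rcases hk with hk | hk
    · apply fact_ge n t hn
      omega
    · exact hk
  have ht3 : 3 ≤ t := by
    by_contra hlt
    push Not at hlt
    have : Nat.factorial t ≤ 2 := by
      interval_cases t <;> decide
    omega
  have hkk : 3 * c + 2 + t = k := by omega
  have hct : t + 3 ≤ 3 * c := by omega
  -- the smaller side
  let N : Fin 2 → Finset V := fun a => univ.filter (fun v => C v = a)
  have hsum : (N 0).card + (N 1).card = n := by
    have h1 : Disjoint (N 0) (N 1) := by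
      rw [disjoint_left]
      intro v h0 h1
      have e0 := (mem_filter.1 h0).2
      have e1 := (mem_filter.1 h1).2
      rw [e0] at e1
      exact absurd e1 (by decide)
    rw [← card_union_of_disjoint h1, hnd, ← card_univ]
    congr 1
    ext v
    simp only [N, mem_union, mem_filter, mem_univ, true_and, iff_true]
    have : ∀ a : Fin 2, a = 0 ∨ a = 1 := by decide
    exact this (C v)
  obtain ⟨a, ha⟩ : ∃ a, (N a).card ≤ 2 * c := by
    by_contra hcon
    push Not at hcon
    have h0 := hcon 0
    have h1 := hcon 1
    omega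
  have hcard : Fintype.card (N a) ≤ Fintype.card (Fin c × Fin 2) := by
    rw [Fintype.card_coe, Fintype.card_prod, Fintype.card_fin, Fintype.card_fin]
    omega
  obtain ⟨ψ⟩ := Function.Embedding.nonempty_of_card_le hcard
  have hc0 : 0 < c := by omega
  let φ : V → Fin c × Fin 2 := fun v => if h : v ∈ N a then ψ ⟨v, h⟩ else (⟨0, hc0⟩, 0)
  rw [← hkk]
  apply bipartite_aux G (fun v => v ∈ N a) ?_ ?_ c t ht3 hct hfac φ
  · intro u v hu hv h
    have hu' : u ∈ N a := hu
    have hv' : v ∈ N a := hv
    simp only [φ, dif_pos hu', dif_pos hv'] at h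
    have := ψ.injective h
    simpa using this
  · intro u v hu hv h
    have hu' : C u ≠ a := fun e => hu (mem_filter.2 ⟨mem_univ _, e⟩)
    have hv' : C v ≠ a := fun e => hv (mem_filter.2 ⟨mem_univ _, e⟩)
    have h3 : ∀ x y z : Fin 2, x ≠ z → y ≠ z → x = y := by decide
    exact hC u v h (h3 _ _ a hu' hv')
  · intro u v hu hv h
    exact hC u v h ((mem_filter.1 hu).2.trans (mem_filter.1 hv).2.symm)

end Pool.Agent.Helper525Drn
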