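import Pool.Agent.Helper525Drn.Defs

/-!
# Derangement representations: proofs

Vertex by vertex (`cells`, `step`, `general`): a new permutation meets every earlier non-neighbour
in a private cell and avoids all other cells.  Two rows at a time (`St.two`, `multi`, `cover`):
the edges of a matching of the complement get two labels each, every label is used by exactly two
vertices in the two new rows, so the array can be completed row by row.
-/

set_option autoImplicit false

namespace Pool.Agent.Helper525Drn

open Finset

theorem matching {α β : Type*} [Nonempty β] (R : Finset α) (L : Finset β) (hRL : R.card = L.card)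
    (bad : α → β → Prop) (t : ℕ) (h2t : 2 * t ≤ R.card)
    (hrow : ∀ i ∈ R, ∀ B : Finset β, (∀ c ∈ B, bad i c) → B.card ≤ t)
    (hcol : ∀ c ∈ L, ∀ B : Finset α, (∀ i ∈ B, bad i c) → B.card ≤ t) :
    ∃ f : α → β, (∀ i ∈ R, f i ∈ L ∧ ¬ bad i (f i)) ∧ Set.InjOn f R := by
  classical
  let N : R → Finset β := fun i => L.filter (fun c => ¬ bad i c)
  have hall : ∀ S : Finset R, S.card ≤ (S.biUnion N).card := by
    intro S
    rcases S.eq_empty_or_nonempty with rfl | ⟨i, hi⟩
    · simp
    by_cases hS : S.card ≤ t
    · have h1 : (N i).card ≤ (S.biUnion N).card :=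
        card_le_card (subset_biUnion_of_mem N hi)
      have h2 : (L.filter (fun c => bad i c)).card ≤ t :=
        hrow i i.2 _ (by intro c hc; exact (mem_filter.1 hc).2)
      have h3 : (L.filter (fun c => bad i c)).card + (N i).card = L.card :=
        card_filter_add_card_filter_not (s := L) (fun c => bad i c)
      omega
    · push Not at hS
      have h1 : L ⊆ S.biUnion N := by
        intro c hc
        by_contra hcon
        have h2 : ∀ j ∈ S.map (Function.Embedding.subtype _), bad j c := by
          intro j hj
          rw [mem_map] at hj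
          obtain ⟨a, ha, rfl⟩ := hj
          by_contra hb
          exact hcon (mem_biUnion.2 ⟨a, ha, mem_filter.2 ⟨hc, hb⟩⟩)
        have h3 := hcol c hc _ h2
        rw [card_map] at h3
        omega
      calc S.card ≤ Fintype.card R := card_le_univ S
        _ = R.card := Fintype.card_coe R
        _ = L.card := hRL
        _ ≤ _ := card_le_card h1
  obtain ⟨f, hf, hf2⟩ := (all_card_le_biUnion_card_iff_exists_injective N).1 hall
  refine ⟨fun i => if h : i ∈ R then f ⟨i, h⟩ else Classical.arbitrary β, ?_, ?_⟩
  · intro i hi
    have := hf2 ⟨i, hi⟩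
    simp only [N, mem_filter] at this
    simp only [hi, dif_pos]
    exact this
  · intro i hi j hj hij
    have hi' : i ∈ R := hi
    have hj' : j ∈ R := hj
    simp only [hi', hj', dif_pos] at hij
    have := hf hij
    simpa using this

/-- `N` rows of labels: every vertex gets different labels in different rows, adjacent vertices get
different labels in every row, every label is used by exactly `N` vertices -/
structure St {n : ℕ} (G : SimpleGraph (Fin n)) (N : ℕ) (L : ℕ → Fin n → Fin n) : Prop where
  inj : ∀ u, ∀ i < N, ∀ j < N, L i u = L j u → i = j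
  sep : ∀ i < N, ∀ u v, G.Adj u v → L i u ≠ L i v
  use : ∀ c, (univ.filter (fun u => ∃ i < N, L i u = c)).card = N

theorem St.used {n : ℕ} {G : SimpleGraph (Fin n)} {N : ℕ} {L : ℕ → Fin n → Fin n} (h : St G N L)
    (u : Fin n) : (univ.filter (fun c => ∃ i < N, L i u = c)).card = N := by
  have e : univ.filter (fun c => ∃ i < N, L i u = c) = (range N).image (fun i => L i u) := by
    ext c
    simp
  rw [e, card_image_of_injOn, card_range]
  intro i hi j hj hij
  exact h.inj u i (by simpa using hi) j (by simpa using hj) hij

/-- one more row, all labels different -/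
theorem St.succ {n : ℕ} {G : SimpleGraph (Fin n)} {N : ℕ} {L : ℕ → Fin n → Fin n} (h : St G N L)
    (hN : N < n) : ∃ β : Fin n → Fin n, Function.Injective β ∧
      St G (N + 1) (fun i => if i = N then β else L i) := by
  classical
  let A : Fin n → Finset (Fin n) := fun u => univ.filter (fun c => ¬ ∃ i < N, L i u = c)
  have hA : ∀ u, (A u).card = n - N := by
    intro u
    have h1 := card_filter_add_card_filter_not (s := (univ : Finset (Fin n)))
      (fun c => ∃ i < N, L i u = c)
    rw [h.used u, card_univ, Fintype.card_fin] at h1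
    have : (A u).card = (univ.filter (fun c => ¬ ∃ i < N, L i u = c)).card := rfl
    omega
  have hB : ∀ c, (univ.filter (fun u => c ∈ A u)).card = n - N := by
    intro c
    have h1 := card_filter_add_card_filter_not (s := (univ : Finset (Fin n)))
      (fun u => ∃ i < N, L i u = c)
    rw [h.use c, card_univ, Fintype.card_fin] at h1
    have : univ.filter (fun u => c ∈ A u) = univ.filter (fun u => ¬ ∃ i < N, L i u = c) := by
      ext u; simp [A]
    rw [this]
    omega
  have hall : ∀ S : Finset (Fin n), S.card ≤ (S.biUnion A).card := by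
    intro S
    have h1 : S.card * (n - N) ≤ (S.biUnion A).card * (n - N) := by
      refine card_mul_le_card_mul (fun u c => c ∈ A u) ?_ ?_
      · intro u hu
        have : (S.biUnion A).bipartiteAbove (fun u c => c ∈ A u) u = A u := by
          ext c
          simp only [bipartiteAbove, mem_filter]
          constructor
          · exact fun h => h.2
          · exact fun h => ⟨mem_biUnion.2 ⟨u, hu, h⟩, h⟩
        rw [this, hA]
      · intro c _
        rw [← hB c]
        exact card_le_card (by
          intro u hu
          simp only [bipartiteBelow, mem_filter] at hu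
          exact mem_filter.2 ⟨mem_univ _, hu.2⟩)
    exact Nat.le_of_mul_le_mul_right h1 (by omega)
  obtain ⟨β, hβ, hβ2⟩ := (all_card_le_biUnion_card_iff_exists_injective A).1 hall
  have hβ3 : ∀ u, ∀ i < N, L i u ≠ β u := by
    intro u i hi he
    have := hβ2 u
    simp only [A, mem_filter] at this
    exact this.2 ⟨i, hi, he⟩
  have hbij : Function.Bijective β := Finite.injective_iff_bijective.1 hβ
  refine ⟨β, hβ, ⟨?_, ?_, ?_⟩⟩
  · intro u i hi j hj hij
    by_cases h1 : i = N <;> by_cases h2 : j = N
    · rw [h1, h2]
    · rw [if_pos h1, if_neg h2] at hij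
      exact absurd hij.symm (hβ3 u j (by omega))
    · rw [if_neg h1, if_pos h2] at hij
      exact absurd hij (hβ3 u i (by omega))
    · rw [if_neg h1, if_neg h2] at hij
      exact h.inj u i (by omega) j (by omega) hij
  · intro i hi u v huv
    by_cases h1 : i = N
    · rw [if_pos h1]
      exact fun he => huv.ne (hβ he)
    · rw [if_neg h1]
      exact h.sep i (by omega) u v huv
  · intro c
    obtain ⟨x, hx⟩ := hbij.2 c
    have e : univ.filter (fun u => ∃ i < N + 1, (if i = N then β else L i) u = c) =
        insert x (univ.filter (fun u => ∃ i < N, L i u = c)) := by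
      ext u
      simp only [mem_filter, mem_univ, true_and, mem_insert]
      constructor
      · rintro ⟨i, hi, he⟩
        by_cases h1 : i = N
        · rw [if_pos h1] at he
          exact Or.inl (hβ (he.trans hx.symm))
        · rw [if_neg h1] at he
          exact Or.inr ⟨i, by omega, he⟩
      · rintro (rfl | ⟨i, hi, he⟩)
        · exact ⟨N, by omega, by rw [if_pos rfl]; exact hx⟩
        · exact ⟨i, by omega, by rw [if_neg (by omega)]; exact he⟩
    rw [e, card_insert_of_notMem, h.use c]
    simp only [mem_filter, mem_univ, true_and]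
    rintro ⟨i, hi, he⟩
    exact hβ3 x i hi (he.trans hx.symm)

/-- completion to all rows; the old rows do not change and the new rows are injective -/
theorem St.complete {n : ℕ} {G : SimpleGraph (Fin n)} {N : ℕ} {L : ℕ → Fin n → Fin n}
    (h : St G N L) (M : ℕ) (hNM : N ≤ M) (hM : M ≤ n) : ∃ L' : ℕ → Fin n → Fin n, St G M L' ∧
      (∀ i < N, L' i = L i) ∧ ∀ i, N ≤ i → i < M → Function.Injective (L' i) := by
  induction M, hNM using Nat.le_induction with
  | base => exact ⟨L, h, fun _ _ => rfl, fun i h1 h2 => absurd h1 (by omega)⟩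
  | succ M hM1 ih =>
    obtain ⟨L', h1, h2, h3⟩ := ih (by omega)
    obtain ⟨β, hβ, h4⟩ := h1.succ (by omega)
    refine ⟨_, h4, ?_, ?_⟩
    · intro i hi
      rw [if_neg (by omega)]
      exact h2 i hi
    · intro i hi hi2
      by_cases he : i = M
      · rw [if_pos he]; exact hβ
      · rw [if_neg he]; exact h3 i hi (by omega)

/-- two more rows, for an involution which moves every vertex to a non-neighbour or to itself -/
theorem St.two {n : ℕ} {G : SimpleGraph (Fin n)} {N : ℕ} {L : ℕ → Fin n → Fin n} (h : St G N L)
    (μ : Fin n → Fin n) (hinv : ∀ u, μ (μ u) = u) (hμ : ∀ u, μ u ≠ u → ¬ G.Adj u (μ u))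
    (hfix : 2 * (N + 1) ≤ (univ.filter (fun u => μ u = u)).card) (h4 : 4 * N ≤ n) :
    ∃ a b : Fin n → Fin n, (∀ u, a (μ u) = a u) ∧
      St G (N + 2) (fun i => if i = N then a else if i = N + 1 then b else L i) := by
  classical
  have hn : 0 < n := by
    rcases Nat.eq_zero_or_pos n with h0 | h0
    · exfalso
      have h1 := card_le_univ (univ.filter (fun u : Fin n => μ u = u))
      rw [Fintype.card_fin] at h1
      omega
    · exact h0
  have : Nonempty (Fin n) := ⟨⟨0, hn⟩⟩
  let W : Finset (Fin n) := univ.filter (fun u => μ u = u)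
  have hW : ∀ u, u ∈ W ↔ μ u = u := fun u => by simp [W]
  -- the first matching
  obtain ⟨β, hβ1, hβ2⟩ := matching (univ : Finset (Fin n)) (univ : Finset (Fin n)) rfl
    (fun u c => (∃ i < N, L i u = c) ∨ ∃ i < N, L i (μ u) = c) (2 * N)
    (by rw [card_univ, Fintype.card_fin]; omega)
    (by
      intro u _ B hB
      have h1 : B ⊆ univ.filter (fun c => ∃ i < N, L i u = c) ∪
          univ.filter (fun c => ∃ i < N, L i (μ u) = c) := by
        intro c hc
        rcases hB c hc with h | h
        · exact mem_union_left _ (mem_filter.2 ⟨mem_univ _, h⟩)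
        · exact mem_union_right _ (mem_filter.2 ⟨mem_univ _, h⟩)
      have h2 := card_le_card h1
      have h3 := card_union_le (univ.filter (fun c => ∃ i < N, L i u = c))
        (univ.filter (fun c => ∃ i < N, L i (μ u) = c))
      rw [h.used, h.used] at h3
      omega)
    (by
      intro c _ B hB
      have h1 : B ⊆ univ.filter (fun u => ∃ i < N, L i u = c) ∪
          (univ.filter (fun u => ∃ i < N, L i u = c)).image μ := by
        intro u hu
        rcases hB u hu with h | h
        · exact mem_union_left _ (mem_filter.2 ⟨mem_univ _, h⟩)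
        · exact mem_union_right _ (mem_image.2 ⟨μ u, mem_filter.2 ⟨mem_univ _, h⟩, hinv u⟩)
      have h2 := card_le_card h1
      have h3 := card_union_le (univ.filter (fun u => ∃ i < N, L i u = c))
        ((univ.filter (fun u => ∃ i < N, L i u = c)).image μ)
      have h4 : ((univ.filter (fun u => ∃ i < N, L i u = c)).image μ).card ≤
        (univ.filter (fun u => ∃ i < N, L i u = c)).card := card_image_le
      rw [h.use] at h3 h4
      omega)
  have hβ : Function.Injective β := by
    intro x y hxy
    exact hβ2 (mem_coe.2 (mem_univ x)) (mem_coe.2 (mem_univ y)) hxy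
  have hbij : Function.Bijective β := Finite.injective_iff_bijective.1 hβ
  have hun : ∀ u m, (m = u ∨ m = μ u) → ∀ i < N, L i u ≠ β m := by
    intro u m hm i hi he
    have h1 := (hβ1 m (mem_univ _)).2
    apply h1
    rcases hm with rfl | rfl
    · exact Or.inl ⟨i, hi, he⟩
    · right
      rw [hinv]
      exact ⟨i, hi, he⟩
  -- the second matching
  obtain ⟨γ, hγ1, hγ2⟩ := matching W (W.image β) (card_image_of_injective W hβ).symm
    (fun w c => (∃ i < N, L i w = c) ∨ c = β w) (N + 1) hfix
    (by
      intro w _ B hB
      have h1 : B ⊆ insert (β w) (univ.filter (fun c => ∃ i < N, L i w = c)) := by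
        intro c hc
        rcases hB c hc with h | h
        · exact mem_insert_of_mem (mem_filter.2 ⟨mem_univ _, h⟩)
        · rw [h]; exact mem_insert_self _ _
      have h2 := card_le_card h1
      have h3 := card_insert_le (β w) (univ.filter (fun c => ∃ i < N, L i w = c))
      rw [h.used] at h3
      omega)
    (by
      intro c hc B hB
      obtain ⟨x, _, hx⟩ := mem_image.1 hc
      have h1 : B ⊆ insert x (univ.filter (fun u => ∃ i < N, L i u = c)) := by
        intro u hu
        rcases hB u hu with h | h
        · exact mem_insert_of_mem (mem_filter.2 ⟨mem_univ _, h⟩)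
        · have : x = u := hβ (hx.trans h)
          rw [this]; exact mem_insert_self _ _
      have h2 := card_le_card h1
      have h3 := card_insert_le x (univ.filter (fun u => ∃ i < N, L i u = c))
      rw [h.use] at h3
      omega)
  have hγC : ∀ w ∈ W, ∃ w' ∈ W, β w' = γ w := fun w hw => mem_image.1 (hγ1 w hw).1
  have hγu : ∀ w ∈ W, ∀ i < N, L i w ≠ γ w := fun w hw i hi he =>
    (hγ1 w hw).2 (Or.inl ⟨i, hi, he⟩)
  have hγn : ∀ w ∈ W, γ w ≠ β w := fun w hw he => (hγ1 w hw).2 (Or.inr he)
  have hγs : ∀ x ∈ W, ∃ w ∈ W, γ w = β x := by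
    intro x hx
    have h1 : (W.image γ) = W.image β := by
      apply eq_of_subset_of_card_le
      · intro c hc
        obtain ⟨w, hw, rfl⟩ := mem_image.1 hc
        exact (hγ1 w hw).1
      · rw [card_image_of_injective W hβ, card_image_of_injOn hγ2]
    have h2 : β x ∈ W.image γ := by
      rw [h1]; exact mem_image_of_mem β hx
    exact mem_image.1 h2
  have mn : ∀ u, min u (μ u) = u ∨ min u (μ u) = μ u := fun u => min_choice _ _
  have mx : ∀ u, max u (μ u) = u ∨ max u (μ u) = μ u := fun u => max_choice _ _
  have back : ∀ u x, (x = u ∨ x = μ u) → (u = x ∨ u = μ x) := by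
    rintro u x (rfl | rfl)
    · exact Or.inl rfl
    · exact Or.inr (hinv u).symm
  have mvn : ∀ u, μ u ≠ u → μ (μ u) ≠ μ u := fun u hu he => hu (by rw [hinv] at he; exact he.symm)
  let a : Fin n → Fin n := fun u => β (min u (μ u))
  let b : Fin n → Fin n := fun u => if μ u = u then γ u else β (max u (μ u))
  have ha : ∀ u, a (μ u) = a u := by
    intro u
    simp only [a]
    rw [hinv, min_comm]
  have hb1 : ∀ u, μ u = u → b u = γ u := fun u hu => by simp only [b]; rw [if_pos hu]
  have hb2 : ∀ u, μ u ≠ u → b u = β (max u (μ u)) := fun u hu => by simp only [b]; rw [if_neg hu]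
  have hb : ∀ u, b (μ u) = b u := by
    intro u
    by_cases hu : μ u = u
    · rw [hu]
    · rw [hb2 u hu, hb2 (μ u) (mvn u hu), hinv, max_comm]
  have hau : ∀ u, ∀ i < N, L i u ≠ a u := fun u i hi => hun u _ (mn u) i hi
  have hbu : ∀ u, ∀ i < N, L i u ≠ b u := by
    intro u i hi
    by_cases hu : μ u = u
    · rw [hb1 u hu]; exact hγu u ((hW u).2 hu) i hi
    · rw [hb2 u hu]; exact hun u _ (mx u) i hi
  have hab : ∀ u, a u ≠ b u := by
    intro u
    by_cases hu : μ u = u
    · rw [hb1 u hu]
      have : a u = β u := by simp only [a]; rw [hu, min_self]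
      rw [this]
      exact (hγn u ((hW u).2 hu)).symm
    · rw [hb2 u hu]
      intro he
      have h1 := hβ he
      rcases lt_or_gt_of_ne hu with h2 | h2
      · rw [min_eq_right h2.le, max_eq_left h2.le] at h1
        exact hu h1
      · rw [min_eq_left h2.le, max_eq_right h2.le] at h1
        exact hu h1.symm
  have nonadj : ∀ u v, G.Adj u v → ¬ (v = u ∨ v = μ u) := by
    rintro u v huv (rfl | rfl)
    · exact huv.ne rfl
    · exact hμ u (fun he => huv.ne he.symm) huv
  have hsa : ∀ u v, G.Adj u v → a u ≠ a v := by
    intro u v huv he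
    have h1 : min u (μ u) = min v (μ v) := hβ he
    apply nonadj u v huv
    rcases mn u with h2 | h2 <;> rcases mn v with h3 | h3
    · left; rw [← h3, ← h1, h2]
    · right
      have : μ v = u := by rw [← h3, ← h1, h2]
      rw [← this, hinv]
    · right; rw [← h3, ← h1, h2]
    · left
      have : μ v = μ u := by rw [← h3, ← h1, h2]
      rw [← hinv v, this, hinv]
  have hsb : ∀ u v, G.Adj u v → b u ≠ b v := by
    intro u v huv he
    have key : ∀ x y, μ x = x → μ y ≠ y → b x ≠ b y := by
      intro x y hx hy hxy
      rw [hb1 x hx, hb2 y hy] at hxy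
      obtain ⟨w, hw, hw2⟩ := hγC x ((hW x).2 hx)
      have h1 : w = max y (μ y) := hβ (hw2.trans hxy)
      have h2 := (hW w).1 hw
      rcases mx y with h3 | h3
      · rw [h3] at h1; rw [h1] at h2; exact hy h2
      · rw [h3] at h1; rw [h1] at h2; exact mvn y hy h2
    by_cases hu : μ u = u <;> by_cases hv : μ v = v
    · rw [hb1 u hu, hb1 v hv] at he
      exact huv.ne (hγ2 (mem_coe.2 ((hW u).2 hu)) (mem_coe.2 ((hW v).2 hv)) he)
    · exact key u v hu hv he
    · exact key v u hv hu he.symm
    · rw [hb2 u hu, hb2 v hv] at he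
      have h1 : max u (μ u) = max v (μ v) := hβ he
      apply nonadj u v huv
      rcases mx u with h2 | h2 <;> rcases mx v with h3 | h3
      · left; rw [← h3, ← h1, h2]
      · right
        have : μ v = u := by rw [← h3, ← h1, h2]
        rw [← this, hinv]
      · right; rw [← h3, ← h1, h2]
      · left
        have : μ v = μ u := by rw [← h3, ← h1, h2]
        rw [← hinv v, this, hinv]
  have hnew : ∀ c, (univ.filter (fun u => a u = c ∨ b u = c)).card = 2 := by
    intro c
    obtain ⟨x, hx⟩ := hbij.2 c
    by_cases hxf : μ x = x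
    · obtain ⟨w, hw, hwx⟩ := hγs x ((hW x).2 hxf)
      have hwne : x ≠ w := by
        rintro rfl
        exact hγn x hw hwx
      have e : univ.filter (fun u => a u = c ∨ b u = c) = {x, w} := by
        ext u
        simp only [mem_filter, mem_univ, true_and, mem_insert, mem_singleton]
        constructor
        · rintro (h1 | h1)
          · left
            have h2 : min u (μ u) = x := hβ (h1.trans hx.symm)
            rcases mn u with h3 | h3
            · rw [← h3, h2]
            · have : μ u = x := by rw [← h3, h2]
              rw [← hinv u, this, hxf]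
          · by_cases hu : μ u = u
            · right
              rw [hb1 u hu] at h1
              exact hγ2 (mem_coe.2 ((hW u).2 hu)) (mem_coe.2 hw) (by rw [h1, hwx, hx])
            · exfalso
              rw [hb2 u hu] at h1
              have h2 : max u (μ u) = x := hβ (h1.trans hx.symm)
              rcases mx u with h3 | h3
              · rw [h3] at h2; rw [h2] at hu; exact hu hxf
              · rw [h3] at h2
                have := mvn u hu
                rw [h2] at this
                exact this hxf
        · rintro (rfl | rfl)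
          · left
            simp only [a]
            rw [hxf, min_self, hx]
          · right
            rw [hb1 u ((hW u).1 hw), hwx, hx]
      rw [e, card_pair hwne]
    · have hne : x ≠ μ x := fun he => hxf he.symm
      have hcx : a x = c ∨ b x = c := by
        rcases le_total x (μ x) with h1 | h1
        · left
          simp only [a]
          rw [min_eq_left h1, hx]
        · right
          rw [hb2 x hxf, max_eq_left h1, hx]
      have e : univ.filter (fun u => a u = c ∨ b u = c) = {x, μ x} := by
        ext u
        simp only [mem_filter, mem_univ, true_and, mem_insert, mem_singleton]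
        constructor
        · rintro (h1 | h1)
          · have h2 : min u (μ u) = x := hβ (h1.trans hx.symm)
            exact back u x (by rw [← h2]; exact mn u)
          · by_cases hu : μ u = u
            · exfalso
              rw [hb1 u hu] at h1
              obtain ⟨w, hw, hw2⟩ := hγC u ((hW u).2 hu)
              have : w = x := hβ (by rw [hw2, h1, hx])
              rw [this] at hw
              exact hxf ((hW x).1 hw)
            · rw [hb2 u hu] at h1
              have h2 : max u (μ u) = x := hβ (h1.trans hx.symm)
              exact back u x (by rw [← h2]; exact mx u)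
        · rintro (rfl | rfl)
          · exact hcx
          · rw [ha, hb]; exact hcx
      rw [e, card_pair hne]
  refine ⟨a, b, ha, ⟨?_, ?_, ?_⟩⟩
  · intro u i hi j hj hij
    by_cases i1 : i = N <;> by_cases j1 : j = N
    · rw [i1, j1]
    · rw [if_pos i1, if_neg j1] at hij
      by_cases j2 : j = N + 1
      · rw [if_pos j2] at hij; exact absurd hij (hab u)
      · rw [if_neg j2] at hij; exact absurd hij.symm (hau u j (by omega))
    · rw [if_neg i1, if_pos j1] at hij
      by_cases i2 : i = N + 1
      · rw [if_pos i2] at hij; exact absurd hij.symm (hab u)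
      · rw [if_neg i2] at hij; exact absurd hij (hau u i (by omega))
    · rw [if_neg i1, if_neg j1] at hij
      by_cases i2 : i = N + 1 <;> by_cases j2 : j = N + 1
      · rw [i2, j2]
      · rw [if_pos i2, if_neg j2] at hij; exact absurd hij.symm (hbu u j (by omega))
      · rw [if_neg i2, if_pos j2] at hij; exact absurd hij (hbu u i (by omega))
      · rw [if_neg i2, if_neg j2] at hij
        exact h.inj u i (by omega) j (by omega) hij
  · intro i hi u v huv
    by_cases i1 : i = N
    · rw [if_pos i1]; exact hsa u v huv
    · rw [if_neg i1]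
      by_cases i2 : i = N + 1
      · rw [if_pos i2]; exact hsb u v huv
      · rw [if_neg i2]; exact h.sep i (by omega) u v huv
  · intro c
    have e : univ.filter (fun u => ∃ i < N + 2, (if i = N then a else if i = N + 1 then b
        else L i) u = c) = univ.filter (fun u => ∃ i < N, L i u = c) ∪
        univ.filter (fun u => a u = c ∨ b u = c) := by
      ext u
      simp only [mem_filter, mem_univ, true_and, mem_union]
      constructor
      · rintro ⟨i, hi, he⟩
        by_cases i1 : i = N
        · rw [if_pos i1] at he; exact Or.inr (Or.inl he)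
        · rw [if_neg i1] at he
          by_cases i2 : i = N + 1
          · rw [if_pos i2] at he; exact Or.inr (Or.inr he)
          · rw [if_neg i2] at he; exact Or.inl ⟨i, by omega, he⟩
      · rintro (⟨i, hi, he⟩ | he | he)
        · exact ⟨i, by omega, by rw [if_neg (by omega), if_neg (by omega)]; exact he⟩
        · exact ⟨N, by omega, by rw [if_pos rfl]; exact he⟩
        · exact ⟨N + 1, by omega, by rw [if_neg (by omega), if_pos rfl]; exact he⟩
    rw [e, card_union_of_disjoint, h.use, hnew]
    rw [disjoint_left]
    intro u hu hu'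
    obtain ⟨i, hi, he⟩ := (mem_filter.1 hu).2
    rcases (mem_filter.1 hu').2 with h1 | h1
    · exact hau u i hi (he.trans h1.symm)
    · exact hbu u i hi (he.trans h1.symm)

/-- all the double rows -/
theorem multi {n : ℕ} (G : SimpleGraph (Fin n)) (T : ℕ) (μ : ℕ → Fin n → Fin n)
    (hinv : ∀ j < T, ∀ u, μ j (μ j u) = u)
    (hμ : ∀ j < T, ∀ u, μ j u ≠ u → ¬ G.Adj u (μ j u))
    (hfix : ∀ j < T, 4 * T ≤ (univ.filter (fun u => μ j u = u)).card + 2) (hn : 8 * T ≤ n + 8) :
    ∀ t ≤ T, ∃ L : ℕ → Fin n → Fin n, St G (2 * t) L ∧
      ∀ j < t, ∀ u, L (2 * j) (μ j u) = L (2 * j) u := by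
  intro t
  induction t with
  | zero =>
    intro _
    refine ⟨fun _ u => u, ⟨?_, ?_, ?_⟩, ?_⟩
    · intro u i hi; omega
    · intro i hi; omega
    · intro c
      rw [card_eq_zero, filter_eq_empty_iff]
      rintro u _ ⟨i, hi, _⟩
      omega
    · intro j hj; omega
  | succ t ih =>
    intro ht
    obtain ⟨L, h1, h2⟩ := ih (by omega)
    have h3 := hfix t (by omega)
    obtain ⟨a, b, ha, h4⟩ := h1.two (μ t) (hinv t (by omega)) (hμ t (by omega)) (by omega) (by omega)
    refine ⟨_, h4, ?_⟩
    intro j hj u
    by_cases hjt : j = t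
    · subst hjt
      rw [if_pos rfl]
      exact ha u
    · rw [if_neg (by omega), if_neg (by omega)]
      exact h2 j (by omega) u

theorem cover {n : ℕ} (G : SimpleGraph (Fin n)) (T : ℕ) (μ : ℕ → Fin n → Fin n)
    (hinv : ∀ j < T, ∀ u, μ j (μ j u) = u)
    (hμ : ∀ j < T, ∀ u, μ j u ≠ u → ¬ G.Adj u (μ j u))
    (hfix : ∀ j < T, 4 * T ≤ (univ.filter (fun u => μ j u = u)).card + 2) (hn : 8 * T ≤ n + 8)
    (hT : 2 * T < n) (hcov : ∀ u v, u ≠ v → ¬ G.Adj u v → ∃ j < T, μ j u = v) :
    Representable G n := by
  classical
  obtain ⟨L, h1, h2⟩ := multi G T μ hinv hμ hfix hn T le_rfl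
  obtain ⟨L', h3, h4, h5⟩ := h1.complete n hT.le le_rfl
  have hinj : ∀ u, Function.Injective (fun i : Fin n => L' i u) := by
    intro u i j hij
    exact Fin.ext (h3.inj u i i.2 j j.2 hij)
  refine ⟨fun u => Equiv.ofBijective _ (Finite.injective_iff_bijective.1 (hinj u)), ?_, ?_⟩
  · intro u v huv
    have h6 := congrArg (fun σ : Equiv.Perm (Fin n) => σ ⟨2 * T, hT⟩) huv
    exact h5 (2 * T) le_rfl hT h6
  · intro u v hne
    constructor
    · intro hadj i
      exact h3.sep i i.2 u v hadj
    · intro hall
      by_contra hnadj
      obtain ⟨j, hj, hjv⟩ := hcov u v hne hnadj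
      apply hall ⟨2 * j, by omega⟩
      show L' (2 * j) u = L' (2 * j) v
      rw [h4 (2 * j) (by omega), ← hjv, h2 j hj u]

/-- Greedy choice of private cells. -/
theorem cells {V : Type*} [DecidableEq V] {k : ℕ} (A : Finset V) (π : V → Equiv.Perm (Fin k))
    (d : ℕ) (hk : 2 * A.card + d ≤ k) (hk0 : 1 ≤ k)
    (hA : ∀ u ∈ A, ∀ w ∈ A, u ≠ w → (univ.filter (fun i => π u i = π w i)).card ≤ 1)
    (B : Finset V) (hB : B ⊆ A) (hBd : B.card ≤ d) :
    ∃ r : V → Fin k, (∀ u ∈ B, ∀ w ∈ A, w ≠ u → π w (r u) ≠ π u (r u)) ∧
      (∀ u ∈ B, ∀ w ∈ B, u ≠ w → r u ≠ r w ∧ π u (r u) ≠ π w (r w)) := by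
  classical
  induction B using Finset.induction_on with
  | empty => exact ⟨fun _ => ⟨0, hk0⟩, by simp, by simp⟩
  | insert u B hu ih =>
    rw [card_insert_of_notMem hu] at hBd
    obtain ⟨r, h1, h2⟩ := ih (fun x hx => hB (mem_insert_of_mem hx)) (by omega)
    have huA : u ∈ A := hB (mem_insert_self u B)
    have hcB : B.card + 1 ≤ A.card := by
      have := card_le_card hB
      rwa [card_insert_of_notMem hu] at this
    let bad1 : Finset (Fin k) := (A.erase u).biUnion (fun w => univ.filter (fun i => π u i = π w i))
    let bad2 : Finset (Fin k) := B.image r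
    let bad3 : Finset (Fin k) := B.image (fun w => (π u).symm (π w (r w)))
    have hb1 : bad1.card ≤ A.card - 1 := by
      calc bad1.card ≤ ∑ w ∈ A.erase u, (univ.filter (fun i => π u i = π w i)).card :=
            card_biUnion_le
        _ ≤ ∑ w ∈ A.erase u, 1 := by
            apply sum_le_sum
            intro w hw
            exact hA u huA w (mem_of_mem_erase hw) (ne_of_mem_erase hw).symm
        _ = A.card - 1 := by simp [card_erase_of_mem huA]
    have hb2 : bad2.card ≤ B.card := card_image_le
    have hb3 : bad3.card ≤ B.card := card_image_le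
    have hex : ∃ i : Fin k, i ∉ bad1 ∪ bad2 ∪ bad3 := by
      by_contra hcon
      push Not at hcon
      have hle : (univ : Finset (Fin k)).card ≤ (bad1 ∪ bad2 ∪ bad3).card :=
        card_le_card (fun i _ => hcon i)
      have h3 := card_union_le (bad1 ∪ bad2) bad3
      have h4 := card_union_le bad1 bad2
      rw [card_univ, Fintype.card_fin] at hle
      omega
    obtain ⟨i, hi⟩ := hex
    simp only [mem_union, not_or] at hi
    obtain ⟨⟨hi1, hi2⟩, hi3⟩ := hi
    have key1 : ∀ w ∈ A, w ≠ u → π w i ≠ π u i := by
      intro w hw hwu h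
      exact hi1 (mem_biUnion.2 ⟨w, mem_erase.2 ⟨hwu, hw⟩, mem_filter.2 ⟨mem_univ _, h.symm⟩⟩)
    have key2 : ∀ w ∈ B, r w ≠ i := by
      intro w hw h
      exact hi2 (mem_image.2 ⟨w, hw, h⟩)
    have key3 : ∀ w ∈ B, π w (r w) ≠ π u i := by
      intro w hw h
      exact hi3 (mem_image.2 ⟨w, hw, by rw [h]; simp⟩)
    have hne : ∀ w ∈ B, w ≠ u := fun w hw h => hu (h ▸ hw)
    refine ⟨Function.update r u i, ?_, ?_⟩
    · intro w hw z hz hzw
      rw [mem_insert] at hw
      rcases hw with rfl | hw
      · rw [Function.update_self]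
        exact key1 z hz hzw
      · rw [Function.update_of_ne (hne w hw)]
        exact h1 w hw z hz hzw
    · intro w hw z hz hwz
      rw [mem_insert] at hw hz
      rcases hw with rfl | hw
      · rcases hz with rfl | hz
        · exact absurd rfl hwz
        · rw [Function.update_self, Function.update_of_ne (hne z hz)]
          exact ⟨(key2 z hz).symm, (key3 z hz).symm⟩
      · rcases hz with rfl | hz
        · rw [Function.update_self, Function.update_of_ne (hne w hw)]
          exact ⟨key2 w hw, key3 w hw⟩
        · rw [Function.update_of_ne (hne w hw), Function.update_of_ne (hne z hz)]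
          exact h2 w hw z hz hwz

/-- One step: a new vertex. -/
theorem step {V : Type*} [DecidableEq V] {k : ℕ} (G : SimpleGraph V) (A : Finset V)
    (π : V → Equiv.Perm (Fin k)) (d : ℕ) (hk : 2 * A.card + d ≤ k) (hk0 : 1 ≤ k)
    (hA : ∀ u ∈ A, ∀ w ∈ A, u ≠ w → (univ.filter (fun i => π u i = π w i)).card ≤ 1)
    (v : V) (hd : ∀ B : Finset V, (∀ w ∈ B, w ≠ v ∧ ¬ G.Adj v w) → B.card ≤ d) (hv : v ∉ A) :
    ∃ σ : Equiv.Perm (Fin k), ∀ w ∈ A,
      (G.Adj v w → univ.filter (fun i => σ i = π w i) = ∅) ∧
      (¬ G.Adj v w → (univ.filter (fun i => σ i = π w i)).card = 1) := by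
  classical
  let B : Finset V := A.filter (fun w => ¬ G.Adj v w)
  have hBd : B.card ≤ d := hd B (by
    intro w hw
    have hw2 := mem_filter.1 hw
    exact ⟨fun he => hv (he ▸ hw2.1), hw2.2⟩)
  obtain ⟨r, h1, h2⟩ := cells A π d hk hk0 hA B (filter_subset _ _) hBd
  have hBA : B.card ≤ A.card := card_le_card (filter_subset _ _)
  have hrinj : Set.InjOn r B := by
    intro a ha b hb hab
    by_contra hne
    exact (h2 a ha b hb hne).1 hab
  have hsinj : Set.InjOn (fun w => π w (r w)) B := by
    intro a ha b hb hab
    by_contra hne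
    exact (h2 a ha b hb hne).2 hab
  let F : Finset (Fin k) := B.image r
  let P : Finset (Fin k) := B.image (fun w => π w (r w))
  have hF : F.card = B.card := card_image_of_injOn hrinj
  have hP : P.card = B.card := card_image_of_injOn hsinj
  have hRc : (Fᶜ).card = k - B.card := by rw [card_compl, hF, Fintype.card_fin]
  have hLc : (Pᶜ).card = k - B.card := by rw [card_compl, hP, Fintype.card_fin]
  have : Nonempty (Fin k) := ⟨⟨0, hk0⟩⟩
  obtain ⟨f, hf1, hf2⟩ := matching Fᶜ Pᶜ (by rw [hRc, hLc])
    (fun i c => ∃ w ∈ A, π w i = c) A.card (by rw [hRc]; omega)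
    (by
      intro i _ C hC
      calc C.card ≤ (A.image (fun w => π w i)).card := by
            apply card_le_card
            intro c hc
            obtain ⟨w, hw, hwc⟩ := hC c hc
            exact mem_image.2 ⟨w, hw, hwc⟩
        _ ≤ A.card := card_image_le)
    (by
      intro c _ C hC
      calc C.card ≤ (A.image (fun w => (π w).symm c)).card := by
            apply card_le_card
            intro i hi
            obtain ⟨w, hw, hwc⟩ := hC i hi
            exact mem_image.2 ⟨w, hw, by rw [← hwc]; simp⟩
        _ ≤ A.card := card_image_le)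
  let g : Fin k → Fin k := fun i =>
    if h : ∃ u ∈ B, r u = i then π h.choose i else f i
  have hg1 : ∀ u ∈ B, g (r u) = π u (r u) := by
    intro u hu
    have h : ∃ u' ∈ B, r u' = r u := ⟨u, hu, rfl⟩
    have hc : h.choose = u := hrinj h.choose_spec.1 hu h.choose_spec.2
    simp only [g, dif_pos h, hc]
  have hg2 : ∀ i, i ∉ F → g i = f i := by
    intro i hi
    have h : ¬ ∃ u ∈ B, r u = i := by
      rintro ⟨u, hu, rfl⟩
      exact hi (mem_image_of_mem r hu)
    simp only [g, dif_neg h]
  have hginj : Function.Injective g := by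
    intro i j hij
    by_cases hi : i ∈ F <;> by_cases hj : j ∈ F
    · obtain ⟨a, ha, rfl⟩ := mem_image.1 hi
      obtain ⟨b, hb, rfl⟩ := mem_image.1 hj
      rw [hg1 a ha, hg1 b hb] at hij
      rw [hsinj ha hb hij]
    · obtain ⟨a, ha, rfl⟩ := mem_image.1 hi
      rw [hg1 a ha, hg2 j hj] at hij
      have := (hf1 j (mem_compl.2 hj)).1
      rw [← hij, mem_compl] at this
      exact absurd (mem_image_of_mem (fun w => π w (r w)) ha) this
    · obtain ⟨b, hb, rfl⟩ := mem_image.1 hj
      rw [hg1 b hb, hg2 i hi] at hij
      have := (hf1 i (mem_compl.2 hi)).1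
      rw [hij, mem_compl] at this
      exact absurd (mem_image_of_mem (fun w => π w (r w)) hb) this
    · rw [hg2 i hi, hg2 j hj] at hij
      exact hf2 (mem_coe.2 (mem_compl.2 hi)) (mem_coe.2 (mem_compl.2 hj)) hij
  let σ : Equiv.Perm (Fin k) := Equiv.ofBijective g (Finite.injective_iff_bijective.1 hginj)
  have hσ : ∀ i, σ i = g i := fun i => rfl
  -- agreements of σ with π w
  have agree : ∀ w ∈ A, ∀ i, σ i = π w i → w ∈ B ∧ r w = i := by
    intro w hw i h
    rw [hσ] at h
    by_cases hi : i ∈ F
    · obtain ⟨a, ha, rfl⟩ := mem_image.1 hi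
      rw [hg1 a ha] at h
      by_cases hwa : w = a
      · subst hwa
        exact ⟨ha, rfl⟩
      · exact absurd h.symm (h1 a ha w hw hwa)
    · rw [hg2 i hi] at h
      exact absurd ⟨w, hw, h.symm⟩ (hf1 i (mem_compl.2 hi)).2
  refine ⟨σ, fun w hw => ⟨fun hadj => ?_, fun hnadj => ?_⟩⟩
  · rw [filter_eq_empty_iff]
    intro i _ h
    have := (agree w hw i h).1
    exact (mem_filter.1 this).2 hadj
  · have hwB : w ∈ B := mem_filter.2 ⟨hw, hnadj⟩
    rw [card_eq_one]
    refine ⟨r w, ?_⟩
    ext i
    rw [mem_filter, mem_singleton]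
    constructor
    · rintro ⟨_, h⟩
      exact (agree w hw i h).2.symm
    · rintro rfl
      exact ⟨mem_univ _, by rw [hσ, hg1 w hwB]⟩

theorem all_steps {V : Type*} [Fintype V] [DecidableEq V] (G : SimpleGraph V) {k : ℕ}
    (d : ℕ) (hd : ∀ v, ∀ B : Finset V, (∀ w ∈ B, w ≠ v ∧ ¬ G.Adj v w) → B.card ≤ d)
    (hk : 2 * Fintype.card V + d ≤ k + 2) (hk0 : 1 ≤ k) (A : Finset V) :
    ∃ π : V → Equiv.Perm (Fin k), ∀ u ∈ A, ∀ w ∈ A, u ≠ w →
      (G.Adj u w → univ.filter (fun i => π u i = π w i) = ∅) ∧
      (¬ G.Adj u w → (univ.filter (fun i => π u i = π w i)).card = 1) := by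
  classical
  induction A using Finset.induction_on with
  | empty => exact ⟨fun _ => 1, by simp⟩
  | insert v A hv ih =>
    obtain ⟨π, hπ⟩ := ih
    have hcA : A.card + 1 ≤ Fintype.card V := by
      have := card_le_univ (insert v A)
      rwa [card_insert_of_notMem hv] at this
    have hA : ∀ u ∈ A, ∀ w ∈ A, u ≠ w →
        (univ.filter (fun i => π u i = π w i)).card ≤ 1 := by
      intro u hu w hw huw
      by_cases h : G.Adj u w
      · rw [(hπ u hu w hw huw).1 h]; simp
      · rw [(hπ u hu w hw huw).2 h]
    obtain ⟨σ, hσ⟩ := step G A π d (by omega) hk0 hA v (hd v) hv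
    have hne : ∀ w ∈ A, w ≠ v := fun w hw h => hv (h ▸ hw)
    refine ⟨Function.update π v σ, ?_⟩
    intro u hu w hw huw
    rw [mem_insert] at hu hw
    rcases hu with rfl | hu
    · rcases hw with rfl | hw
      · exact absurd rfl huw
      · rw [Function.update_self, Function.update_of_ne (hne w hw)]
        exact hσ w hw
    · rcases hw with rfl | hw
      · rw [Function.update_self, Function.update_of_ne (hne u hu)]
        have h := hσ u hu
        have e : (univ.filter (fun i => π u i = σ i)) = univ.filter (fun i => σ i = π u i) := by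
          ext i; simp [eq_comm]
        rw [e, G.adj_comm]
        exact h
      · rw [Function.update_of_ne (hne u hu), Function.update_of_ne (hne w hw)]
        exact hπ u hu w hw huw


/-- greedy distribution of the non-edges over `4 D + 1` involutions with many fixed points -/
theorem greedy {n : ℕ} (G : SimpleGraph (Fin n)) (D : ℕ)
    (hD : ∀ v, ∀ B : Finset (Fin n), (∀ w ∈ B, w ≠ v ∧ ¬ G.Adj v w) → B.card ≤ D)
    (h1D : 1 ≤ D) (hn : 32 * D ≤ n) (E : Finset (Sym2 (Fin n)))
    (hE : ∀ u v, s(u, v) ∈ E → u ≠ v ∧ ¬ G.Adj u v) :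
    ∃ μ : ℕ → Fin n → Fin n, (∀ j u, μ j (μ j u) = u) ∧
      (∀ j u, μ j u ≠ u → s(u, μ j u) ∈ E) ∧
      (∀ u v, s(u, v) ∈ E → ∃ j < 4 * D + 1, μ j u = v) ∧
      (∀ u, ∀ i < 4 * D + 1, ∀ j < 4 * D + 1, μ i u = μ j u → μ i u ≠ u → i = j) ∧
      (∀ j, (univ.filter (fun u => μ j u ≠ u)).card + 16 * D + 2 ≤ n) := by
  classical
  induction E using Finset.induction_on with
  | empty =>
    refine ⟨fun _ u => u, fun _ _ => rfl, fun _ _ h => absurd rfl h, ?_, ?_, ?_⟩
    · intro u v h
      exact absurd h (notMem_empty _)
    · intro u i _ j _ _ h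
      exact absurd rfl h
    · intro j
      simp only [ne_eq, not_true_eq_false, filter_false, card_empty]
      omega
  | insert e E he ih =>
    obtain ⟨μ, m1, m2, m3, m4, m5⟩ := ih (fun u v h => hE u v (mem_insert_of_mem h))
    induction e with
    | h u v =>
    obtain ⟨huv, hnadj⟩ := hE u v (mem_insert_self _ _)
    have cnt : ∀ x, ((range (4 * D + 1)).filter (fun j => μ j x ≠ x)).card ≤ D := by
      intro x
      have e1 : ((range (4 * D + 1)).filter (fun j => μ j x ≠ x)).card =
          (((range (4 * D + 1)).filter (fun j => μ j x ≠ x)).image (fun j => μ j x)).card := by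
        rw [card_image_of_injOn]
        intro i hi j hj hij
        have hi' := mem_filter.1 (mem_coe.1 hi)
        have hj' := mem_filter.1 (mem_coe.1 hj)
        exact m4 x i (mem_range.1 hi'.1) j (mem_range.1 hj'.1) hij hi'.2
      rw [e1]
      apply hD x
      intro w hw
      obtain ⟨j, hj, rfl⟩ := mem_image.1 hw
      have hj' := (mem_filter.1 hj).2
      exact ⟨hj', (hE x (μ j x) (mem_insert_of_mem (m2 j x hj'))).2⟩
    have hfull : ((range (4 * D + 1)).filter
        (fun j => n < (univ.filter (fun x => μ j x ≠ x)).card + 16 * D + 4)).card ≤ 2 * D := by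
      set Bf := (range (4 * D + 1)).filter
        (fun j => n < (univ.filter (fun x => μ j x ≠ x)).card + 16 * D + 4) with hBf
      by_contra hcon
      push Not at hcon
      have e1 : Bf.card * (n - 16 * D - 3) ≤ ∑ j ∈ Bf, (univ.filter (fun x => μ j x ≠ x)).card := by
        rw [← smul_eq_mul]
        apply card_nsmul_le_sum
        intro j hj
        have := (mem_filter.1 hj).2
        omega
      have e2 : ∑ j ∈ Bf, (univ.filter (fun x => μ j x ≠ x)).card ≤
          ∑ j ∈ range (4 * D + 1), (univ.filter (fun x => μ j x ≠ x)).card :=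
        sum_le_sum_of_subset (filter_subset _ _)
      have e3 : ∑ j ∈ range (4 * D + 1), (univ.filter (fun x => μ j x ≠ x)).card =
          ∑ x : Fin n, ((range (4 * D + 1)).filter (fun j => μ j x ≠ x)).card := by
        simp only [card_filter]
        exact sum_comm
      have e4 : ∑ x : Fin n, ((range (4 * D + 1)).filter (fun j => μ j x ≠ x)).card ≤ n * D := by
        calc _ ≤ ∑ x : Fin n, D := sum_le_sum (fun x _ => cnt x)
          _ = n * D := by simp
      have e5 : (2 * D + 1) * (n - 16 * D - 3) ≤ n * D := by
        calc (2 * D + 1) * (n - 16 * D - 3) ≤ Bf.card * (n - 16 * D - 3) :=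
              Nat.mul_le_mul_right _ hcon
          _ ≤ n * D := by omega
      obtain ⟨r, rfl⟩ : ∃ r, n = 32 * D + r := ⟨n - 32 * D, by omega⟩
      have e6 : 32 * D + r - 16 * D - 3 = (16 * D - 3) + r := by omega
      obtain ⟨q, rfl⟩ : ∃ q, D = q + 1 := ⟨D - 1, by omega⟩
      have e7 : 16 * (q + 1) - 3 = 16 * q + 13 := by omega
      rw [e6, e7] at e5
      nlinarith
    have hex : ∃ j ∈ range (4 * D + 1), ¬ (μ j u ≠ u) ∧ ¬ (μ j v ≠ v) ∧
        ¬ (n < (univ.filter (fun x => μ j x ≠ x)).card + 16 * D + 4) := by
      by_contra hcon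
      push Not at hcon
      have h1 : range (4 * D + 1) ⊆ ((range (4 * D + 1)).filter (fun j => μ j u ≠ u) ∪
          (range (4 * D + 1)).filter (fun j => μ j v ≠ v)) ∪ (range (4 * D + 1)).filter
          (fun j => n < (univ.filter (fun x => μ j x ≠ x)).card + 16 * D + 4) := by
        intro j hj
        simp only [mem_union, mem_filter]
        by_cases c1 : μ j u = u
        · by_cases c2 : μ j v = v
          · exact Or.inr ⟨hj, hcon j hj c1 c2⟩
          · exact Or.inl (Or.inr ⟨hj, c2⟩)
        · exact Or.inl (Or.inl ⟨hj, c1⟩)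
      have h2 := card_le_card h1
      have h3 := card_union_le ((range (4 * D + 1)).filter (fun j => μ j u ≠ u) ∪
          (range (4 * D + 1)).filter (fun j => μ j v ≠ v)) ((range (4 * D + 1)).filter
          (fun j => n < (univ.filter (fun x => μ j x ≠ x)).card + 16 * D + 4))
      have h4 := card_union_le ((range (4 * D + 1)).filter (fun j => μ j u ≠ u))
          ((range (4 * D + 1)).filter (fun j => μ j v ≠ v))
      have h5 := cnt u
      have h6 := cnt v
      rw [card_range] at h2
      omega
    obtain ⟨j0, hj0, hu0, hv0, hf0⟩ := hex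
    rw [mem_range] at hj0
    push Not at hu0 hv0 hf0
    let f : Fin n → Fin n := fun w => if w = u then v else if w = v then u else μ j0 w
    have fu : f u = v := by simp [f]
    have fv : f v = u := by simp [f, huv.symm]
    have fw : ∀ w, w ≠ u → w ≠ v → f w = μ j0 w := by
      intro w h1 h2
      simp [f, h1, h2]
    have gu : ∀ w, w ≠ u → μ j0 w ≠ u := by
      intro w h1 h2
      apply h1
      rw [← m1 j0 w, h2, hu0]
    have gv : ∀ w, w ≠ v → μ j0 w ≠ v := by
      intro w h1 h2
      apply h1
      rw [← m1 j0 w, h2, hv0]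
    refine ⟨fun j => if j = j0 then f else μ j, ?_, ?_, ?_, ?_, ?_⟩
    · intro j w
      by_cases hj : j = j0
      · simp only [if_pos hj]
        by_cases h1 : w = u
        · rw [h1, fu, fv]
        · by_cases h2 : w = v
          · rw [h2, fv, fu]
          · rw [fw w h1 h2, fw _ (gu w h1) (gv w h2), m1]
      · simp only [if_neg hj]
        exact m1 j w
    · intro j w
      by_cases hj : j = j0
      · simp only [if_pos hj]
        by_cases h1 : w = u
        · rw [h1, fu]
          intro _
          exact mem_insert_self _ _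
        · by_cases h2 : w = v
          · rw [h2, fv]
            intro _
            rw [Sym2.eq_swap]
            exact mem_insert_self _ _
          · rw [fw w h1 h2]
            intro h3
            exact mem_insert_of_mem (m2 j0 w h3)
      · simp only [if_neg hj]
        intro h3
        exact mem_insert_of_mem (m2 j w h3)
    · intro x y hxy
      rw [mem_insert] at hxy
      rcases hxy with hxy | hxy
      · rw [Sym2.eq_iff] at hxy
        refine ⟨j0, hj0, ?_⟩
        simp only [if_true]
        rcases hxy with ⟨rfl, rfl⟩ | ⟨rfl, rfl⟩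
        · exact fu
        · exact fv
      · obtain ⟨j, hj, hjx⟩ := m3 x y hxy
        refine ⟨j, hj, ?_⟩
        by_cases hjj : j = j0
        · simp only [if_pos hjj]
          have hne : x ≠ y := (hE x y (mem_insert_of_mem hxy)).1
          rw [hjj] at hjx
          have h1 : x ≠ u := by
            rintro rfl
            exact hne (hu0.symm.trans hjx)
          have h2 : x ≠ v := by
            rintro rfl
            exact hne (hv0.symm.trans hjx)
          rw [fw x h1 h2, hjx]
        · simp only [if_neg hjj]
          exact hjx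
    · have key : ∀ w, ∀ j < 4 * D + 1, j ≠ j0 → f w = μ j w → f w ≠ w → j0 = j := by
        intro w j hj hjj h1 h2
        by_cases h3 : w = u
        · exfalso
          rw [h3, fu] at h1
          apply he
          have : μ j u ≠ u := by rw [← h1]; exact huv.symm
          have h4 := m2 j u this
          rwa [← h1] at h4
        · by_cases h4 : w = v
          · exfalso
            rw [h4, fv] at h1
            apply he
            have : μ j v ≠ v := by rw [← h1]; exact huv
            have h5 := m2 j v this
            rw [← h1, Sym2.eq_swap] at h5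
            exact h5
          · rw [fw w h3 h4] at h1 h2
            exact m4 w j0 hj0 j hj h1 h2
      intro w i hi j hj hij hiw
      by_cases i1 : i = j0 <;> by_cases j1 : j = j0
      · rw [i1, j1]
      · simp only [if_pos i1, if_neg j1] at hij hiw
        rw [i1]
        exact key w j hj j1 hij hiw
      · simp only [if_neg i1, if_pos j1] at hij hiw
        rw [j1]
        exact (key w i hi i1 hij.symm (by rw [← hij]; exact hiw)).symm
      · simp only [if_neg i1, if_neg j1] at hij hiw
        exact m4 w i hi j hj hij hiw
    · intro j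
      by_cases hj : j = j0
      · simp only [if_pos hj]
        have h1 : univ.filter (fun w => f w ≠ w) ⊆
            insert u (insert v (univ.filter (fun w => μ j0 w ≠ w))) := by
          intro w hw
          simp only [mem_insert, mem_filter, mem_univ, true_and] at hw ⊢
          by_cases h2 : w = u
          · exact Or.inl h2
          · by_cases h3 : w = v
            · exact Or.inr (Or.inl h3)
            · rw [fw w h2 h3] at hw
              exact Or.inr (Or.inr hw)
        have h2 := card_le_card h1
        have h3 := card_insert_le u (insert v (univ.filter (fun w => μ j0 w ≠ w)))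
        have h4 := card_insert_le v (univ.filter (fun w => μ j0 w ≠ w))
        omega
      · simp only [if_neg hj]
        exact m5 j

theorem sparse {n : ℕ} (G : SimpleGraph (Fin n)) (D : ℕ)
    (hD : ∀ v, ∀ B : Finset (Fin n), (∀ w ∈ B, w ≠ v ∧ ¬ G.Adj v w) → B.card ≤ D)
    (hn : 32 * D ≤ n) (hn1 : 1 ≤ n) : Representable G n := by
  classical
  rcases Nat.eq_zero_or_pos D with h0 | h0
  · refine cover G 0 (fun _ u => u) (by intro j hj; omega) (by intro j hj; omega)
      (by intro j hj; omega) (by omega) (by omega) ?_
    intro u v huv hnadj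
    exfalso
    have := hD u {v} (by
      intro w hw
      rw [mem_singleton] at hw
      rw [hw]
      exact ⟨huv.symm, hnadj⟩)
    rw [card_singleton] at this
    omega
  · obtain ⟨μ, m1, m2, m3, m4, m5⟩ := greedy G D hD h0 hn
      (univ.filter (fun e => e ∈ Gᶜ.edgeSet)) (by
        intro u v h
        have := (mem_filter.1 h).2
        rw [SimpleGraph.mem_edgeSet, SimpleGraph.compl_adj] at this
        exact this)
    refine cover G (4 * D + 1) μ (fun j _ u => m1 j u) ?_ ?_ (by omega) (by omega) ?_
    · intro j _ u hu
      have := (mem_filter.1 (m2 j u hu)).2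
      rw [SimpleGraph.mem_edgeSet, SimpleGraph.compl_adj] at this
      exact this.2
    · intro j _
      have h1 := card_filter_add_card_filter_not (s := (univ : Finset (Fin n)))
        (fun u => μ j u = u)
      have h2 := m5 j
      rw [card_univ, Fintype.card_fin] at h1
      have h3 : (univ.filter (fun u => μ j u ≠ u)).card =
        (univ.filter (fun u => ¬ μ j u = u)).card := rfl
      omega
    · intro u v huv hnadj
      apply m3
      rw [mem_filter, SimpleGraph.mem_edgeSet, SimpleGraph.compl_adj]
      exact ⟨mem_univ _, huv, hnadj⟩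

theorem general {V : Type*} [Fintype V] (G : SimpleGraph V) (hV : 2 ≤ Fintype.card V) (D : ℕ)
    (hD : ∀ v, ∀ B : Finset V, (∀ w ∈ B, w ≠ v ∧ ¬ G.Adj v w) → B.card ≤ D) :
    Representable G (2 * Fintype.card V - 2 + D) := by
  classical
  obtain ⟨π, hπ⟩ := all_steps G (k := 2 * Fintype.card V - 2 + D) D hD (by omega) (by omega) univ
  refine ⟨π, ?_, ?_⟩
  · intro u w huw
    by_contra hne
    have h : univ.filter (fun i => π u i = π w i) = univ := by
      rw [huw]; simp
    by_cases hadj : G.Adj u w
    · have h1 := (hπ u (mem_univ _) w (mem_univ _) hne).1 hadj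
      rw [h] at h1
      have h2 : (univ : Finset (Fin (2 * Fintype.card V - 2 + D))).card = 0 := by rw [h1]; simp
      rw [card_univ, Fintype.card_fin] at h2
      omega
    · have h1 := (hπ u (mem_univ _) w (mem_univ _) hne).2 hadj
      rw [h, card_univ, Fintype.card_fin] at h1
      omega
  · intro u w hne
    constructor
    · intro hadj i hi
      have h1 := (hπ u (mem_univ _) w (mem_univ _) hne).1 hadj
      have : i ∈ univ.filter (fun i => π u i = π w i) := mem_filter.2 ⟨mem_univ _, hi⟩
      rw [h1] at this
      simp at this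
    · intro h
      by_contra hnadj
      have h1 := (hπ u (mem_univ _) w (mem_univ _) hne).2 hnadj
      rw [card_eq_one] at h1
      obtain ⟨i, hi⟩ := h1
      have : i ∈ univ.filter (fun i => π u i = π w i) := by rw [hi]; simp
      exact h i (mem_filter.1 this).2

/-- the exact bound when the complement is sparse -/
theorem sparseV {V : Type*} [Fintype V] (G : SimpleGraph V) (hV : 2 ≤ Fintype.card V) (D : ℕ)
    (hD : CoDegLe G D) (hn : 32 * D ≤ Fintype.card V) : Representable G (Fintype.card V) := by
  classical
  let e : V ≃ Fin (Fintype.card V) := Fintype.equivFin V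
  obtain ⟨π, h1, h2⟩ := sparse (G.comap e.symm) D (by
    intro v B hB
    have := hD (e.symm v) (B.map e.symm.toEmbedding) (by
      intro w hw
      obtain ⟨b, hb, rfl⟩ := mem_map.1 hw
      have h3 := hB b hb
      exact ⟨fun h => h3.1 (e.symm.injective h), h3.2⟩)
    rwa [card_map] at this) hn (by omega)
  refine ⟨fun u => π (e u), fun u w h => e.injective (h1 h), ?_⟩
  intro u w hne
  rw [← h2 (e u) (e w) (fun h => hne (e.injective h))]
  simp [SimpleGraph.comap_adj]

end Pool.Agent.Helper525Drn
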