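import Mathlib

/-!
# Derangement representations: the definitions
-/

set_option autoImplicit false

namespace Pool.Agent.Helper525Drn

/-- `G` is derangement `k`-representable: there is an injective map of the vertices to the
permutations of `k` points such that different vertices are adjacent iff their permutations
disagree at every point. -/
def Representable {V : Type*} (G : SimpleGraph V) (k : ℕ) : Prop :=
  ∃ π : V → Equiv.Perm (Fin k), Function.Injective π ∧
    ∀ u v : V, u ≠ v → (G.Adj u v ↔ ∀ i : Fin k, π u i ≠ π v i)

/-- every vertex is non-adjacent to at most `D` other vertices -/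
def CoDegLe {V : Type*} (G : SimpleGraph V) (D : ℕ) : Prop :=
  ∀ v, ∀ B : Finset V, (∀ w ∈ B, w ≠ v ∧ ¬ G.Adj v w) → B.card ≤ D

end Pool.Agent.Helper525Drn
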