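import Pool.Agent.Helper525Drn.Core

/-!
# Derangement representations of graphs of small maximum degree

Random affine permutations in blocks (greedy averaging), then completion by Hall's theorem.
-/

set_option autoImplicit false

namespace Pool.Agent.Helper525Drn

open Finset

/-- Averaging: if every requirement is met by a proportion `p` of the objects, then `t` objects
leave at most `(1 - p) ^ t` of the requirements unmet. -/
theorem greedyCover {Ω R : Type*} [Fintype Ω] [Nonempty Ω] (cov : Ω → R → Prop)
    [∀ c r, Decidable (cov c r)] (U : Finset R) (p : ℝ) (hp1 : p ≤ 1)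
    (h : ∀ r ∈ U, p * (Fintype.card Ω : ℝ) ≤ ((univ.filter (fun c => cov c r)).card : ℝ))
    (t : ℕ) :
    ∃ f : ℕ → Ω, ((U.filter (fun r => ∀ j < t, ¬ cov (f j) r)).card : ℝ) ≤
      (1 - p) ^ t * U.card := by
  classical
  induction t with
  | zero =>
    refine ⟨fun _ => Classical.arbitrary Ω, ?_⟩
    simp
  | succ t ih =>
    obtain ⟨f, hf⟩ := ih
    set W := U.filter (fun r => ∀ j < t, ¬ cov (f j) r) with hW
    have hsum : ∑ c : Ω, ((W.filter (fun r => cov c r)).card : ℝ) =
        ∑ r ∈ W, ((univ.filter (fun c => cov c r)).card : ℝ) := by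
      have e := Finset.sum_card_bipartiteAbove_eq_sum_card_bipartiteBelow
        (s := (univ : Finset Ω)) (t := W) (fun c r => cov c r)
      simp only [bipartiteAbove, bipartiteBelow] at e
      exact_mod_cast e
    have hex : ∃ c : Ω, p * (W.card : ℝ) ≤ ((W.filter (fun r => cov c r)).card : ℝ) := by
      by_contra hcon
      push Not at hcon
      have h1 : ∑ c : Ω, ((W.filter (fun r => cov c r)).card : ℝ) <
          ∑ _c : Ω, p * (W.card : ℝ) :=
        Finset.sum_lt_sum_of_nonempty univ_nonempty (fun c _ => hcon c)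
      have h2 : ∑ r ∈ W, p * (Fintype.card Ω : ℝ) ≤
          ∑ r ∈ W, ((univ.filter (fun c => cov c r)).card : ℝ) :=
        Finset.sum_le_sum (fun r hr => h r (mem_filter.1 hr).1)
      rw [hsum] at h1
      rw [sum_const, card_univ, nsmul_eq_mul] at h1
      rw [sum_const, nsmul_eq_mul] at h2
      nlinarith
    obtain ⟨c, hc⟩ := hex
    refine ⟨Function.update f t c, ?_⟩
    have hsub : U.filter (fun r => ∀ j < t + 1, ¬ cov (Function.update f t c j) r) =
        W.filter (fun r => ¬ cov c r) := by
      ext r
      simp only [hW, mem_filter]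
      constructor
      · rintro ⟨h1, h2⟩
        refine ⟨⟨h1, fun j hj => ?_⟩, ?_⟩
        · have := h2 j (by omega)
          rwa [Function.update_of_ne (by omega)] at this
        · have := h2 t (by omega)
          rwa [Function.update_self] at this
      · rintro ⟨⟨h1, h2⟩, h3⟩
        refine ⟨h1, fun j hj => ?_⟩
        rcases Nat.lt_succ_iff_lt_or_eq.1 hj with hj | rfl
        · rw [Function.update_of_ne (by omega)]
          exact h2 j hj
        · rw [Function.update_self]
          exact h3
    rw [hsub]
    have hcard : ((W.filter (fun r => cov c r)).card : ℝ) +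
        ((W.filter (fun r => ¬ cov c r)).card : ℝ) = W.card := by
      exact_mod_cast card_filter_add_card_filter_not (s := W) (fun r => cov c r)
    have h3 : ((W.filter (fun r => ¬ cov c r)).card : ℝ) ≤ (1 - p) * W.card := by
      linarith
    calc ((W.filter (fun r => ¬ cov c r)).card : ℝ) ≤ (1 - p) * W.card := h3
      _ ≤ (1 - p) * ((1 - p) ^ t * U.card) := by
          apply mul_le_mul_of_nonneg_left hf (by linarith)
      _ = (1 - p) ^ (t + 1) * U.card := by ring

section affine

variable {V : Type*} [Fintype V] [DecidableEq V] {F : Type*} [Field F] [Fintype F] [DecidableEq F]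

/-- the value of an affine permutation -/
def val (x : Fˣ × F) (i : F) : F := (x.1 : F) * i + x.2

theorem val_inj (x : Fˣ × F) {i j : F} (h : val x i = val x j) : i = j := by
  unfold val at h
  have h2 : (x.1 : F) * i = (x.1 : F) * j := by simpa using h
  exact mul_left_cancel₀ (Units.ne_zero x.1) h2

theorem bad_count (w : V) (h : (V → Fˣ × F) → F)
    (hh : ∀ c a, h (Function.update c w ((c w).1, a)) = h c) :
    (univ.filter (fun c : V → Fˣ × F => (c w).2 = h c)).card * Fintype.card F ≤
      Fintype.card (V → Fˣ × F) := by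
  classical
  rw [← card_univ (α := F), ← card_product, ← card_univ (α := V → Fˣ × F)]
  apply card_le_card_of_injOn
    (fun p : (V → Fˣ × F) × F => Function.update p.1 w ((p.1 w).1, p.2))
  · intro p _
    exact mem_coe.2 (mem_univ _)
  · rintro ⟨c, a⟩ hc ⟨c', a'⟩ hc' he
    simp only [coe_product, Set.mem_prod, mem_coe, mem_filter, mem_univ, true_and] at hc hc'
    simp only at he
    have hw := congrFun he w
    rw [Function.update_self, Function.update_self] at hw
    obtain ⟨hw1, hw2⟩ := Prod.mk.inj hw
    have h1 : h c = h c' := by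
      rw [← hh c a, he, hh c' a']
    have h2 : c = c' := by
      funext y
      by_cases hy : y = w
      · subst hy
        exact Prod.ext hw1 (by rw [hc.1, hc'.1, h1])
      · have := congrFun he y
        rwa [Function.update_of_ne hy, Function.update_of_ne hy] at this
    rw [h2, hw2]

theorem bad_count' (u v : V) (huv : u ≠ v) :
    (univ.filter (fun c : V → Fˣ × F => (c v).1 = (c u).1)).card * Fintype.card Fˣ ≤
      Fintype.card (V → Fˣ × F) := by
  classical
  rw [← card_univ (α := Fˣ), ← card_product, ← card_univ (α := V → Fˣ × F)]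
  apply card_le_card_of_injOn
    (fun p : (V → Fˣ × F) × Fˣ => Function.update p.1 v (p.2, (p.1 v).2))
  · intro p _
    exact mem_coe.2 (mem_univ _)
  · rintro ⟨c, a⟩ hc ⟨c', a'⟩ hc' he
    simp only [coe_product, Set.mem_prod, mem_coe, mem_filter, mem_univ, true_and] at hc hc'
    simp only at he
    have hw := congrFun he v
    rw [Function.update_self, Function.update_self] at hw
    obtain ⟨hw1, hw2⟩ := Prod.mk.inj hw
    have hu : c u = c' u := by
      have := congrFun he u
      rwa [Function.update_of_ne huv, Function.update_of_ne huv] at this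
    have h2 : c = c' := by
      funext y
      by_cases hy : y = v
      · subst hy
        exact Prod.ext (by rw [hc.1, hc'.1, hu]) hw2
      · have := congrFun he y
        rwa [Function.update_of_ne hy, Function.update_of_ne hy] at this
    rw [h2, hw1]

/-- column `i` of the block `c` is valid for `v` -/
def Valid (G : SimpleGraph V) (c : V → Fˣ × F) (v : V) (i : F) : Prop :=
  ∀ w, G.Adj v w → val (c w) i ≠ val (c v) i

/-- most blocks are valid for `u` in the column `ι c` -/
theorem invalid_count (G : SimpleGraph V) (D : ℕ) (u v : V) (huv : ¬ G.Adj u v)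
    (hD : ∀ B : Finset V, (∀ w ∈ B, G.Adj u w) → B.card ≤ D)
    (hq : 4 * D ≤ Fintype.card F) (ι : (V → Fˣ × F) → F)
    (hι : ∀ c w x, w ≠ u → w ≠ v → ι (Function.update c w x) = ι c)
    (S : Finset (V → Fˣ × F))
    (hS : ∀ c ∈ S, ∃ w, G.Adj u w ∧ val (c w) (ι c) = val (c u) (ι c)) :
    4 * S.card ≤ Fintype.card (V → Fˣ × F) := by
  classical
  set q := Fintype.card F with hqd
  have hq0 : 0 < q := Fintype.card_pos
  let N : Finset V := univ.filter (fun w => G.Adj u w)
  have hN : N.card ≤ D := hD N (fun w hw => (mem_filter.1 hw).2)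
  let E : V → Finset (V → Fˣ × F) := fun w => univ.filter (fun c : V → Fˣ × F =>
    (c w).2 = val (c u) (ι c) - ((c w).1 : F) * ι c)
  have h1 : S ⊆ N.biUnion E := by
    intro c hc
    obtain ⟨w, hw1, hw2⟩ := hS c hc
    refine mem_biUnion.2 ⟨w, mem_filter.2 ⟨mem_univ _, hw1⟩, mem_filter.2 ⟨mem_univ _, ?_⟩⟩
    rw [← hw2]
    unfold val
    ring
  have h2 : ∀ w ∈ N, (E w).card * q ≤ Fintype.card (V → Fˣ × F) := by
    intro w hw
    have hwu : G.Adj u w := (mem_filter.1 hw).2
    have hne1 : w ≠ u := fun h => (G.ne_of_adj hwu) h.symm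
    have hne2 : w ≠ v := fun h => huv (h ▸ hwu)
    apply bad_count w
    intro c a
    rw [hι c w _ hne1 hne2, Function.update_of_ne hne1.symm, Function.update_self]
  have h3 : (N.biUnion E).card * q ≤ D * Fintype.card (V → Fˣ × F) := by
    calc (N.biUnion E).card * q ≤ (∑ w ∈ N, (E w).card) * q :=
          Nat.mul_le_mul_right _ card_biUnion_le
      _ = ∑ w ∈ N, (E w).card * q := by rw [Finset.sum_mul]
      _ ≤ ∑ _w ∈ N, Fintype.card (V → Fˣ × F) := Finset.sum_le_sum h2
      _ = N.card * Fintype.card (V → Fˣ × F) := by rw [sum_const, smul_eq_mul]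
      _ ≤ _ := Nat.mul_le_mul_right _ hN
  have h4 := card_le_card h1
  set M := Fintype.card (V → Fˣ × F)
  have h5 : (4 * (N.biUnion E).card) * q ≤ M * q := by
    calc (4 * (N.biUnion E).card) * q = 4 * ((N.biUnion E).card * q) := by ring
      _ ≤ 4 * (D * M) := Nat.mul_le_mul_left _ h3
      _ = (4 * D) * M := by ring
      _ ≤ q * M := Nat.mul_le_mul_right _ hq
      _ = M * q := by ring
  have h6 := Nat.le_of_mul_le_mul_right h5 hq0
  omega

/-- what a block does for a pair of vertices -/
def Cov (G : SimpleGraph V) (c : V → Fˣ × F) (r : V × V × Bool) : Prop :=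
  ∃ i : F, Valid G c r.1 i ∧ Valid G c r.2.1 i ∧
    (r.2.2 = true ↔ val (c r.1) i = val (c r.2.1) i)

theorem cov_count (G : SimpleGraph V) (D : ℕ)
    (hD : ∀ v, ∀ B : Finset V, (∀ w ∈ B, G.Adj v w) → B.card ≤ D)
    (hq : 4 * D ≤ Fintype.card F) (hq5 : 5 ≤ Fintype.card F) (u v : V) (hne : u ≠ v)
    (huv : ¬ G.Adj u v) (b : Bool) [DecidablePred (fun c : V → Fˣ × F => Cov G c (u, v, b))] :
    Fintype.card (V → Fˣ × F) ≤
      4 * (univ.filter (fun c : V → Fˣ × F => Cov G c (u, v, b))).card := by
  classical
  have hvu : ¬ G.Adj v u := fun h => huv h.symm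
  have main : ∀ (ι : (V → Fˣ × F) → F) (E0 : Finset (V → Fˣ × F)),
      (∀ c w x, w ≠ u → w ≠ v → ι (Function.update c w x) = ι c) →
      4 * E0.card ≤ Fintype.card (V → Fˣ × F) →
      (∀ c, c ∉ E0 → (b = true ↔ val (c u) (ι c) = val (c v) (ι c))) →
      Fintype.card (V → Fˣ × F) ≤
        4 * (univ.filter (fun c : V → Fˣ × F => Cov G c (u, v, b))).card := by
    intro ι E0 hι hE0 hb
    let S1 : Finset (V → Fˣ × F) := univ.filter (fun c : V → Fˣ × F => ∃ w, G.Adj u w ∧
            val (c w) (ι c) = val (c u) (ι c))
    let S2 : Finset (V → Fˣ × F) := univ.filter (fun c : V → Fˣ × F => ∃ w, G.Adj v w ∧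
            val (c w) (ι c) = val (c v) (ι c))
    have a1 := invalid_count G D u v huv (hD u) hq ι hι S1 (fun c hc => (mem_filter.1 hc).2)
    have a2 := invalid_count G D v u hvu (hD v) hq ι (fun c w x h1 h2 => hι c w x h2 h1) S2
      (fun c hc => (mem_filter.1 hc).2)
    have hsub : (univ : Finset (V → Fˣ × F)) ⊆
        (univ.filter (fun c : V → Fˣ × F => Cov G c (u, v, b))) ∪ (E0 ∪ (S1 ∪ S2)) := by
      intro c _
      by_cases h1 : ∃ w, G.Adj u w ∧ val (c w) (ι c) = val (c u) (ι c)
      · exact mem_union_right _ (mem_union_right _ (mem_union_left _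
          (mem_filter.2 ⟨mem_univ _, h1⟩)))
      by_cases h2 : ∃ w, G.Adj v w ∧ val (c w) (ι c) = val (c v) (ι c)
      · exact mem_union_right _ (mem_union_right _ (mem_union_right _
          (mem_filter.2 ⟨mem_univ _, h2⟩)))
      by_cases h3 : c ∈ E0
      · exact mem_union_right _ (mem_union_left _ h3)
      · apply mem_union_left
        rw [mem_filter]
        push Not at h1 h2
        exact ⟨mem_univ _, ι c, h1, h2, hb c h3⟩
    have hc := card_le_card hsub
    rw [card_univ] at hc
    have c1 := card_union_le (univ.filter (fun c : V → Fˣ × F => Cov G c (u, v, b)))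
      (E0 ∪ (S1 ∪ S2))
    have c2 := card_union_le E0 (S1 ∪ S2)
    have c3 := card_union_le S1 S2
    omega
  cases b with
  | true =>
    apply main (fun c => ((c v).2 - (c u).2) / (((c u).1 : F) - ((c v).1 : F)))
      (univ.filter (fun c : V → Fˣ × F => (c v).1 = (c u).1))
    · intro c w x h1 h2
      simp only [Function.update_of_ne h1.symm, Function.update_of_ne h2.symm]
    · have h1 := bad_count' (F := F) u v hne
      have h2 : Fintype.card Fˣ + 1 = Fintype.card F := by
        have h3 := Fintype.card_units F
        omega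
      have h4 : 4 ≤ Fintype.card Fˣ := by omega
      calc 4 * (univ.filter (fun c : V → Fˣ × F => (c v).1 = (c u).1)).card
          = (univ.filter (fun c : V → Fˣ × F => (c v).1 = (c u).1)).card * 4 := by ring
        _ ≤ (univ.filter (fun c : V → Fˣ × F => (c v).1 = (c u).1)).card * Fintype.card Fˣ :=
            Nat.mul_le_mul_left _ h4
        _ ≤ _ := h1
    · intro c hc
      have hc' : ¬ (c v).1 = (c u).1 := fun h => hc (mem_filter.2 ⟨mem_univ _, h⟩)
      have hc2 : ((c u).1 : F) - ((c v).1 : F) ≠ 0 := by
        intro h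
        apply hc'
        apply Units.ext
        exact (sub_eq_zero.1 h).symm
      refine ⟨fun _ => ?_, fun _ => rfl⟩
      unfold val
      field_simp
      ring
  | false =>
    apply main (fun _ => 0) (univ.filter (fun c : V → Fˣ × F => (c v).2 = (c u).2))
    · intro c w x _ _
      rfl
    · have h1 := bad_count (V := V) (F := F) v (fun c => (c u).2) (by
        intro c a
        simp only [Function.update_of_ne hne])
      calc 4 * (univ.filter (fun c : V → Fˣ × F => (c v).2 = (c u).2)).card
          = (univ.filter (fun c : V → Fˣ × F => (c v).2 = (c u).2)).card * 4 := by ring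
        _ ≤ (univ.filter (fun c : V → Fˣ × F => (c v).2 = (c u).2)).card * Fintype.card F :=
            Nat.mul_le_mul_left _ (by omega)
        _ ≤ _ := h1
    · intro c hc
      refine ⟨fun h => absurd h (by decide), fun h => ?_⟩
      exfalso
      apply hc
      refine mem_filter.2 ⟨mem_univ _, ?_⟩
      unfold val at h
      simpa using h.symm

end affine

end Pool.Agent.Helper525Drn
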