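import Pool.Agent.Helper525Drn.LowDegree

/-!
# Derangement representations of graphs of small maximum degree: completion and assembly
-/

set_option autoImplicit false

namespace Pool.Agent.Helper525Drn

open Finset

/-- Completion of prescribed cells `Q v i x` (in the row of `v`, column `i` has label `x`) to
permutations such that adjacent vertices have disjoint rows. -/
theorem complete {V : Type*} [Fintype V] [DecidableEq V] (G : SimpleGraph V) (D k : ℕ)
    (hD : ∀ v, ∀ B : Finset V, (∀ w ∈ B, G.Adj v w) → B.card ≤ D)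
    (Q : V → Fin k → Fin k → Prop)
    (q1 : ∀ v i x y, Q v i x → Q v i y → x = y)
    (q2 : ∀ v i j x, Q v i x → Q v j x → i = j)
    (q3 : ∀ u v i x, G.Adj u v → Q u i x → ¬ Q v i x)
    (q4 : ∀ v, ∀ C : Finset (Fin k), (∀ i ∈ C, ∃ x, Q v i x) → C.card + 2 * D ≤ k)
    (hk : 1 ≤ k) :
    ∃ π : V → Equiv.Perm (Fin k), (∀ v i x, Q v i x → π v i = x) ∧
      (∀ u v, G.Adj u v → ∀ i, π u i ≠ π v i) := by
  classical
  have main : ∀ A : Finset V, ∃ π : V → Equiv.Perm (Fin k),
      (∀ v ∈ A, ∀ i x, Q v i x → π v i = x) ∧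
      (∀ u ∈ A, ∀ v ∈ A, G.Adj u v → ∀ i, π u i ≠ π v i) ∧
      (∀ u ∈ A, ∀ v, G.Adj u v → ∀ i x, Q v i x → π u i ≠ x) := by
    intro A
    induction A using Finset.induction_on with
    | empty =>
      exact ⟨fun _ => 1, by simp, by simp, by simp⟩
    | insert v A hv ih =>
      obtain ⟨π, p1, p2, p3⟩ := ih
      let cell : V → Fin k → Fin k → Prop := fun u i x =>
        (u ∈ A ∧ π u i = x) ∨ (u ∉ A ∧ Q u i x)
      let bad : Fin k → Fin k → Prop := fun i x => ∃ u, G.Adj v u ∧ cell u i x
      let N : Finset V := univ.filter (fun u => G.Adj v u)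
      have hN : N.card ≤ D := hD v N (fun w hw => (mem_filter.1 hw).2)
      have cell1 : ∀ u i x y, cell u i x → cell u i y → x = y := by
        rintro u i x y (⟨h1, h2⟩ | ⟨h1, h2⟩) (⟨h3, h4⟩ | ⟨h3, h4⟩)
        · rw [← h2, ← h4]
        · exact absurd h1 h3
        · exact absurd h3 h1
        · exact q1 u i x y h2 h4
      have cell2 : ∀ u i j x, cell u i x → cell u j x → i = j := by
        rintro u i j x (⟨h1, h2⟩ | ⟨h1, h2⟩) (⟨h3, h4⟩ | ⟨h3, h4⟩)
        · exact (π u).injective (by rw [h2, h4])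
        · exact absurd h1 h3
        · exact absurd h3 h1
        · exact q2 u i j x h2 h4
      have row : ∀ i, ∀ C : Finset (Fin k), (∀ x ∈ C, bad i x) → C.card ≤ D := by
        intro i C hC
        have hsub : C ⊆ N.biUnion (fun u => univ.filter (fun x => cell u i x)) := by
          intro x hx
          obtain ⟨u, hu1, hu2⟩ := hC x hx
          exact mem_biUnion.2 ⟨u, mem_filter.2 ⟨mem_univ _, hu1⟩,
            mem_filter.2 ⟨mem_univ _, hu2⟩⟩
        calc C.card ≤ _ := card_le_card hsub
          _ ≤ ∑ u ∈ N, (univ.filter (fun x => cell u i x)).card := card_biUnion_le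
          _ ≤ ∑ _u ∈ N, 1 := by
              apply Finset.sum_le_sum
              intro u _
              rw [card_le_one]
              intro a ha b hb
              exact cell1 u i a b (mem_filter.1 ha).2 (mem_filter.1 hb).2
          _ = N.card := by simp
          _ ≤ D := hN
      have col : ∀ x, ∀ C : Finset (Fin k), (∀ i ∈ C, bad i x) → C.card ≤ D := by
        intro x C hC
        have hsub : C ⊆ N.biUnion (fun u => univ.filter (fun i => cell u i x)) := by
          intro i hi
          obtain ⟨u, hu1, hu2⟩ := hC i hi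
          exact mem_biUnion.2 ⟨u, mem_filter.2 ⟨mem_univ _, hu1⟩,
            mem_filter.2 ⟨mem_univ _, hu2⟩⟩
        calc C.card ≤ _ := card_le_card hsub
          _ ≤ ∑ u ∈ N, (univ.filter (fun i => cell u i x)).card := card_biUnion_le
          _ ≤ ∑ _u ∈ N, 1 := by
              apply Finset.sum_le_sum
              intro u _
              rw [card_le_one]
              intro a ha b hb
              exact cell2 u a b x (mem_filter.1 ha).2 (mem_filter.1 hb).2
          _ = N.card := by simp
          _ ≤ D := hN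
      have presc : ∀ i x, Q v i x → ¬ bad i x := by
        rintro i x hQ ⟨u, hu, (⟨h1, h2⟩ | ⟨_, h2⟩)⟩
        · exact p3 u h1 v hu.symm i x hQ h2
        · exact q3 v u i x hu hQ h2
      let P : Finset (Fin k) := univ.filter (fun i => ∃ x, Q v i x)
      let r : Fin k → Fin k := fun i => if h : ∃ x, Q v i x then h.choose else i
      have hr : ∀ i x, Q v i x → r i = x := by
        intro i x h
        have h' : ∃ x, Q v i x := ⟨x, h⟩
        simp only [r, dif_pos h']
        exact q1 v i _ _ h'.choose_spec h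
      have hrinj : Set.InjOn r P := by
        intro a ha b hb hab
        obtain ⟨x, hx⟩ := (mem_filter.1 (mem_coe.1 ha)).2
        obtain ⟨y, hy⟩ := (mem_filter.1 (mem_coe.1 hb)).2
        rw [hr a x hx, hr b y hy] at hab
        subst hab
        exact q2 v a b x hx hy
      have hPk := q4 v P (fun i hi => (mem_filter.1 hi).2)
      have hRc : (Pᶜ).card = k - P.card := by rw [card_compl, Fintype.card_fin]
      have hLc : ((P.image r)ᶜ).card = k - P.card := by
        rw [card_compl, Fintype.card_fin, card_image_of_injOn hrinj]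
      have : Nonempty (Fin k) := ⟨⟨0, hk⟩⟩
      obtain ⟨f, hf1, hf2⟩ := matching Pᶜ (P.image r)ᶜ (by rw [hRc, hLc]) bad D
        (by rw [hRc]; omega) (fun i _ => row i) (fun x _ => col x)
      let g : Fin k → Fin k := fun i => if i ∈ P then r i else f i
      have hg1 : ∀ i ∈ P, g i = r i := fun i hi => by simp only [g, if_pos hi]
      have hg2 : ∀ i, i ∉ P → g i = f i := fun i hi => by simp only [g, if_neg hi]
      have hginj : Function.Injective g := by
        intro i j hij
        by_cases hi : i ∈ P <;> by_cases hj : j ∈ P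
        · rw [hg1 i hi, hg1 j hj] at hij
          exact hrinj hi hj hij
        · rw [hg1 i hi, hg2 j hj] at hij
          have := (hf1 j (mem_compl.2 hj)).1
          rw [← hij, mem_compl] at this
          exact absurd (mem_image_of_mem r hi) this
        · rw [hg1 j hj, hg2 i hi] at hij
          have := (hf1 i (mem_compl.2 hi)).1
          rw [hij, mem_compl] at this
          exact absurd (mem_image_of_mem r hj) this
        · rw [hg2 i hi, hg2 j hj] at hij
          exact hf2 (mem_coe.2 (mem_compl.2 hi)) (mem_coe.2 (mem_compl.2 hj)) hij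
      let σ : Equiv.Perm (Fin k) := Equiv.ofBijective g (Finite.injective_iff_bijective.1 hginj)
      have hσ : ∀ i, σ i = g i := fun i => rfl
      have hσQ : ∀ i x, Q v i x → σ i = x := by
        intro i x h
        rw [hσ, hg1 i (mem_filter.2 ⟨mem_univ _, x, h⟩), hr i x h]
      have hσbad : ∀ i, ¬ bad i (σ i) := by
        intro i
        by_cases hi : i ∈ P
        · obtain ⟨x, hx⟩ := (mem_filter.1 hi).2
          rw [hσQ i x hx]
          exact presc i x hx
        · rw [hσ, hg2 i hi]
          exact (hf1 i (mem_compl.2 hi)).2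
      have hne : ∀ w ∈ A, w ≠ v := fun w hw h => hv (h ▸ hw)
      have hσA : ∀ u ∈ A, G.Adj v u → ∀ i, σ i ≠ π u i := by
        intro u hu huv i h
        exact hσbad i ⟨u, huv, Or.inl ⟨hu, h.symm⟩⟩
      refine ⟨Function.update π v σ, ?_, ?_, ?_⟩
      · intro w hw i x h
        rcases mem_insert.1 hw with rfl | hw
        · rw [Function.update_self]
          exact hσQ i x h
        · rw [Function.update_of_ne (hne w hw)]
          exact p1 w hw i x h
      · intro u hu0 w hw0 huw i
        rcases mem_insert.1 hu0 with hu | hu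
        · rcases mem_insert.1 hw0 with hw | hw
          · exact absurd (hu.trans hw.symm) (G.ne_of_adj huw)
          · rw [hu, Function.update_self, Function.update_of_ne (hne w hw)]
            exact hσA w hw (hu ▸ huw) i
        · rcases mem_insert.1 hw0 with hw | hw
          · rw [hw, Function.update_self, Function.update_of_ne (hne u hu)]
            exact fun h => hσA u hu (hw ▸ huw.symm) i h.symm
          · rw [Function.update_of_ne (hne u hu), Function.update_of_ne (hne w hw)]
            exact p2 u hu w hw huw i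
      · intro u hu w huw i x hQ
        rcases mem_insert.1 hu with rfl | hu
        · rw [Function.update_self]
          intro h
          by_cases hwA : w ∈ A
          · exact hσbad i ⟨w, huw, Or.inl ⟨hwA, by rw [p1 w hwA i x hQ, h]⟩⟩
          · exact hσbad i ⟨w, huw, Or.inr ⟨hwA, by rw [h]; exact hQ⟩⟩
        · rw [Function.update_of_ne (hne u hu)]
          exact p3 u hu w huw i x hQ
  obtain ⟨π, p1, p2, _⟩ := main univ
  exact ⟨π, fun v i x h => p1 v (mem_univ _) i x h,
    fun u v h i => p2 u (mem_univ _) v (mem_univ _) h i⟩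

theorem lowDegree {V : Type*} [Fintype V] (G : SimpleGraph V) (D : ℕ)
    (hD : ∀ v, ∀ B : Finset V, (∀ w ∈ B, G.Adj v w) → B.card ≤ D) (k : ℕ)
    (hk : 25 * (D + 1) * (2 * Nat.log 2 (Fintype.card V) + 3) ≤ k) : Representable G k := by
  classical
  obtain ⟨q, hqp, hq1, hq2⟩ := Nat.exists_prime_lt_and_le_two_mul (4 * (D + 1)) (by omega)
  have : Fact q.Prime := ⟨hqp⟩
  set n := Fintype.card V with hn
  set ℓ := 2 * Nat.log 2 n + 3 with hℓ
  have hcq : Fintype.card (ZMod q) = q := ZMod.card q
  let U : Finset (V × V × Bool) := univ.filter (fun r => r.1 ≠ r.2.1 ∧ ¬ G.Adj r.1 r.2.1)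
  have hΩ : Nonempty (V → (ZMod q)ˣ × ZMod q) := ⟨fun _ => (1, 0)⟩
  obtain ⟨f, hf⟩ := greedyCover (fun (c : V → (ZMod q)ˣ × ZMod q) r => Cov G c r) U (1 / 4)
    (by norm_num) (by
      rintro ⟨u, v, b⟩ hr
      have hr2 := (mem_filter.1 hr).2
      have := cov_count (F := ZMod q) G D hD (by rw [hcq]; omega) (by rw [hcq]; omega) u v
        hr2.1 hr2.2 b
      have h2 : (Fintype.card (V → (ZMod q)ˣ × ZMod q) : ℝ) ≤
          4 * ((univ.filter (fun c : V → (ZMod q)ˣ × ZMod q => Cov G c (u, v, b))).card : ℝ) := by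
        exact_mod_cast this
      linarith) (3 * ℓ)
  -- all requirements are met
  have hU : (U.card : ℝ) < 2 ^ ℓ := by
    have h1 : U.card ≤ n * (n * 2) := by
      calc U.card ≤ (univ : Finset (V × V × Bool)).card := card_le_card (filter_subset _ _)
        _ = n * (n * 2) := by
          rw [card_univ, Fintype.card_prod, Fintype.card_prod, Fintype.card_bool]
    have h2 : n < 2 ^ (Nat.log 2 n + 1) := Nat.lt_pow_succ_log_self (by norm_num) n
    have h3 : n * (n * 2) < 2 ^ ℓ := by
      have e : (2 : ℕ) ^ ℓ = 2 ^ (Nat.log 2 n + 1) * (2 ^ (Nat.log 2 n + 1) * 2) := by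
        rw [hℓ, ← pow_succ, ← pow_add]
        congr 1
        omega
      rw [e]
      have hpos : 0 < (2 : ℕ) ^ (Nat.log 2 n + 1) := by positivity
      calc n * (n * 2) ≤ 2 ^ (Nat.log 2 n + 1) * (n * 2) := Nat.mul_le_mul_right _ h2.le
        _ < 2 ^ (Nat.log 2 n + 1) * (2 ^ (Nat.log 2 n + 1) * 2) := by
          apply Nat.mul_lt_mul_of_pos_left _ hpos
          omega
    exact_mod_cast lt_of_le_of_lt h1 h3
  have hmet : ∀ r ∈ U, ∃ j < 3 * ℓ, Cov G (f j) r := by
    by_contra hcon
    push Not at hcon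
    obtain ⟨r, hr, hr2⟩ := hcon
    have h1 : (1 : ℝ) ≤ ((U.filter (fun r => ∀ j < 3 * ℓ, ¬ Cov G (f j) r)).card : ℝ) := by
      have : 0 < (U.filter (fun r => ∀ j < 3 * ℓ, ¬ Cov G (f j) r)).card :=
        card_pos.2 ⟨r, mem_filter.2 ⟨hr, hr2⟩⟩
      exact_mod_cast this
    have h2 : ((1 : ℝ) - 1 / 4) ^ (3 * ℓ) ≤ (1 / 2) ^ ℓ := by
      rw [pow_mul]
      apply pow_le_pow_left₀ (by norm_num)
      norm_num
    have h3 : ((1 : ℝ) - 1 / 4) ^ (3 * ℓ) * U.card ≤ (1 / 2) ^ ℓ * U.card :=
      mul_le_mul_of_nonneg_right h2 (Nat.cast_nonneg _)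
    have h4 : ((1 : ℝ) / 2) ^ ℓ * U.card < (1 / 2) ^ ℓ * 2 ^ ℓ :=
      mul_lt_mul_of_pos_left hU (by positivity)
    have h5 : ((1 : ℝ) / 2) ^ ℓ * 2 ^ ℓ = 1 := by
      rw [← mul_pow]; norm_num
    linarith
  -- the columns
  have hcard : Fintype.card (Fin (3 * ℓ) × ZMod q) ≤ Fintype.card (Fin k) := by
    rw [Fintype.card_prod, Fintype.card_fin, Fintype.card_fin, hcq]
    calc 3 * ℓ * q ≤ 3 * ℓ * (2 * (4 * (D + 1))) := Nat.mul_le_mul_left _ hq2
      _ = 24 * (D + 1) * ℓ := by ring
      _ ≤ 25 * (D + 1) * ℓ := by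
          apply Nat.mul_le_mul_right
          omega
      _ ≤ k := hk
  have hroom : 3 * ℓ * q + 2 * D ≤ k := by
    have h1 : 3 * ℓ * q ≤ 3 * ℓ * (2 * (4 * (D + 1))) := Nat.mul_le_mul_left _ hq2
    have h2 : 3 * ℓ * (2 * (4 * (D + 1))) + (D + 1) * ℓ = 25 * (D + 1) * ℓ := by ring
    have h3 : (D + 1) * 3 ≤ (D + 1) * ℓ := Nat.mul_le_mul_left _ (by omega)
    omega
  have hk1 : 1 ≤ k := by
    have : 1 ≤ 3 * ℓ * q := by
      have h1 : 0 < q := hqp.pos
      have h2 : 0 < 3 * ℓ := by omega
      exact Nat.mul_pos h2 h1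
    omega
  obtain ⟨e⟩ := Function.Embedding.nonempty_of_card_le hcard
  let Q : V → Fin k → Fin k → Prop := fun v i x => ∃ j : Fin (3 * ℓ), ∃ a : ZMod q,
    Valid G (f j) v a ∧ e (j, a) = i ∧ e (j, val (f j v) a) = x
  obtain ⟨π, p1, p2⟩ := complete G D k hD Q
    (by
      rintro v i x y ⟨j, a, _, h1, h2⟩ ⟨j', a', _, h3, h4⟩
      have := e.injective (h1.trans h3.symm)
      obtain ⟨rfl, rfl⟩ := Prod.mk.inj this
      rw [← h2, ← h4])
    (by
      rintro v i i' x ⟨j, a, _, h1, h2⟩ ⟨j', a', _, h3, h4⟩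
      have := e.injective (h2.trans h4.symm)
      obtain ⟨rfl, h5⟩ := Prod.mk.inj this
      have h6 := val_inj _ h5
      subst h6
      rw [← h1, ← h3])
    (by
      rintro u v i x huv ⟨j, a, h0, h1, h2⟩ ⟨j', a', _, h3, h4⟩
      have := e.injective (h1.trans h3.symm)
      obtain ⟨rfl, rfl⟩ := Prod.mk.inj this
      have h5 := e.injective (h2.trans h4.symm)
      exact h0 v huv (Prod.mk.inj h5).2.symm)
    (by
      intro v C hC
      have hsub : C ⊆ univ.image e := by
        intro i hi
        obtain ⟨x, j, a, _, h1, _⟩ := hC i hi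
        exact mem_image.2 ⟨(j, a), mem_univ _, h1⟩
      have h1 := card_le_card hsub
      have h2 : (univ.image e).card ≤ 3 * ℓ * q := by
        calc (univ.image e).card ≤ (univ : Finset (Fin (3 * ℓ) × ZMod q)).card := card_image_le
          _ = 3 * ℓ * q := by
            rw [card_univ, Fintype.card_prod, Fintype.card_fin, hcq]
      omega) hk1
  have key : ∀ u v, u ≠ v → ¬ G.Adj u v → ∀ b : Bool, ∃ i, (b = true ↔ π u i = π v i) := by
    intro u v hne huv b
    obtain ⟨j, hj, a, h1, h2, h3⟩ := hmet (u, v, b) (mem_filter.2 ⟨mem_univ _, hne, huv⟩)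
    simp only at h1 h2 h3
    refine ⟨e (⟨j, hj⟩, a), ?_⟩
    rw [p1 u _ _ ⟨⟨j, hj⟩, a, h1, rfl, rfl⟩, p1 v _ _ ⟨⟨j, hj⟩, a, h2, rfl, rfl⟩, h3]
    constructor
    · intro h
      simp only [h]
    · intro h
      exact (Prod.mk.inj (e.injective h)).2
  refine ⟨π, ?_, ?_⟩
  · intro u v huv
    by_contra hne
    by_cases hadj : G.Adj u v
    · exact p2 u v hadj ⟨0, hk1⟩ (by rw [huv])
    · obtain ⟨i, hi⟩ := key u v hne hadj false
      exact absurd (hi.2 (by rw [huv])) (by decide)
  · intro u v hne
    constructor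
    · exact p2 u v
    · intro h
      by_contra hadj
      obtain ⟨i, hi⟩ := key u v hne hadj true
      exact h i (hi.1 rfl)

end Pool.Agent.Helper525Drn
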